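import Pool.Agent.PD4.Ix.QDefs

/-!
# Project PD4 (MP_69cf13_gt), quantisation block (helper56)

Fourier series of periodic functions, discrete Fourier sums, star product estimate, Riemann sums,
matrix norms, symbol calculus modulo `O(N⁻²)`, inverse and words.
-/

set_option linter.unusedSectionVars false
set_option linter.unusedVariables false

/-!
# Project PD4 (MP_69cf13_gt), quantisation: Fourier series of periodic `C²` functions

`fc F a` = Fourier coefficient of a `1`-periodic function, decay `‖fc F a‖ ≤ K/(1+a²)`,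
Fourier series, discrete orthogonality.
-/

section

open MeasureTheory intervalIntegral
open scoped Real

namespace Pool.Agent.PD4.QW

/-- `e(t) = exp(2πi t)` -/
noncomputable def e (t : ℂ) : ℂ := Complex.exp (2 * Real.pi * Complex.I * t)

lemma e_add (s t : ℂ) : e (s + t) = e s * e t := by
  rw [e, e, e, ← Complex.exp_add, mul_add]

lemma e_zero : e 0 = 1 := by simp [e]

lemma e_int (m : ℤ) : e m = 1 := by
  rw [e, Complex.exp_eq_one_iff]
  exact ⟨m, by ring⟩

lemma e_nat (m : ℕ) : e m = 1 := by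
  have := e_int (m : ℤ)
  simpa using this

lemma e_pow (t : ℂ) (m : ℕ) : e t ^ m = e (m * t) := by
  rw [e, e, ← Complex.exp_nat_mul]
  congr 1; ring

lemma norm_e (t : ℝ) : ‖e (t : ℂ)‖ = 1 := by
  have : (2 * Real.pi * Complex.I * (t : ℂ)) = ((2 * Real.pi * t : ℝ) : ℂ) * Complex.I := by
    push_cast; ring
  rw [e, this, Complex.norm_exp_ofReal_mul_I]

lemma e_ne_zero (t : ℂ) : e t ≠ 0 := Complex.exp_ne_zero _

/-- Fourier coefficient -/
noncomputable def fc (F : ℝ → ℂ) (a : ℤ) : ℂ :=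
  ∫ x in (0 : ℝ)..1, F x * e (-(a * x))

lemma continuous_e (a : ℤ) : Continuous fun x : ℝ => e (-(a * x)) := by
  unfold e; fun_prop

lemma hasDerivAt_e (a : ℤ) (x : ℝ) :
    HasDerivAt (fun x : ℝ => e (-(a * x))) (-(2 * Real.pi * Complex.I * a) * e (-(a * x))) x := by
  have h0 : HasDerivAt (fun x : ℝ => (x : ℂ)) 1 x := Complex.ofRealCLM.hasDerivAt
  have h1 : HasDerivAt (fun x : ℝ => 2 * Real.pi * Complex.I * (-((a : ℂ) * (x : ℂ))))
      (2 * Real.pi * Complex.I * (-((a : ℂ) * 1))) x :=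
    ((h0.const_mul (a : ℂ)).neg).const_mul (2 * Real.pi * Complex.I)
  have h2 := h1.cexp
  unfold e
  convert h2 using 1
  ring

lemma norm_fc_le {F : ℝ → ℂ} {A : ℝ} (h : ∀ x, ‖F x‖ ≤ A) (a : ℤ) : ‖fc F a‖ ≤ A := by
  have := intervalIntegral.norm_integral_le_of_norm_le_const (a := (0 : ℝ)) (b := 1)
    (f := fun x => F x * e (-(a * x))) (C := A) (by
      intro x _
      have : e (-(a * x)) = e ((-(a * x) : ℝ) : ℂ) := by push_cast; rfl
      rw [norm_mul, this, norm_e, mul_one]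
      exact h x)
  simpa [fc] using this

lemma fc_deriv {F F' : ℝ → ℂ} (h : ∀ x, HasDerivAt F (F' x) x) (hc : Continuous F')
    (hp : F 1 = F 0) (a : ℤ) : fc F' a = 2 * Real.pi * Complex.I * a * fc F a := by
  have h1 := intervalIntegral.integral_deriv_mul_eq_sub (a := (0 : ℝ)) (b := 1)
    (u := F) (v := fun x : ℝ => e (-(a * x))) (u' := F')
    (v' := fun x : ℝ => -(2 * Real.pi * Complex.I * a) * e (-(a * x)))
    (fun x _ => h x) (fun x _ => hasDerivAt_e a x)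
    (hc.intervalIntegrable _ _)
    ((continuous_const.mul (continuous_e a)).intervalIntegrable _ _)
  have hFc : Continuous F := by
    rw [continuous_iff_continuousAt]; exact fun x => (h x).continuousAt
  have e1 : e (-((a : ℂ) * ((1 : ℝ) : ℂ))) = 1 := by
    have := e_int (-a)
    simpa using this
  have e0 : e (-((a : ℂ) * ((0 : ℝ) : ℂ))) = 1 := by simp [e]
  rw [intervalIntegral.integral_add (f := fun x => F' x * e (-(a * x)))
    (g := fun x => F x * (-(2 * Real.pi * Complex.I * a) * e (-(a * x))))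
    ((hc.mul (continuous_e a)).intervalIntegrable _ _)
    ((hFc.mul (continuous_const.mul (continuous_e a))).intervalIntegrable _ _)] at h1
  have h2 : (∫ x in (0 : ℝ)..1, F x * (-(2 * Real.pi * Complex.I * a) * e (-(a * x)))) =
      -(2 * Real.pi * Complex.I * a) * fc F a := by
    rw [fc, ← intervalIntegral.integral_const_mul]
    congr 1; ext x; ring
  rw [h2] at h1
  beta_reduce at h1
  rw [e1, e0, hp, mul_one, sub_self] at h1
  rw [fc]
  linear_combination h1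

/-- weight -/
noncomputable def wt (a : ℤ) : ℝ := 1 / (1 + (a : ℝ) ^ 2)

lemma wt_nonneg (a : ℤ) : 0 ≤ wt a := by unfold wt; positivity

lemma wt_summable : Summable wt := by
  have h1 : Summable fun a : ℤ => 1 / (a : ℝ) ^ 2 :=
    Real.summable_one_div_int_pow.mpr (by norm_num)
  have h2 : Summable fun a : ℤ => if a = 0 then (1 : ℝ) else 0 :=
    summable_of_ne_finset_zero (s := {0}) (by intro b hb; simp at hb; simp [hb])
  refine Summable.of_nonneg_of_le wt_nonneg ?_ (h1.add h2)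
  intro a
  unfold wt
  by_cases ha : a = 0
  · simp [ha]
  · have : (0 : ℝ) < (a : ℝ) ^ 2 := by positivity
    simp only [ha, if_false, add_zero]
    exact one_div_le_one_div_of_le this (by linarith)

/-- total weight -/
noncomputable def Wt : ℝ := ∑' a, wt a

lemma Wt_nonneg : 0 ≤ Wt := tsum_nonneg wt_nonneg

lemma fc_bound {F F' F'' : ℝ → ℂ} (h : ∀ x, HasDerivAt F (F' x) x)
    (h' : ∀ x, HasDerivAt F' (F'' x) x) (hc : Continuous F'')
    (hp : F 1 = F 0) (hp' : F' 1 = F' 0) {A B : ℝ} (hA : ∀ x, ‖F x‖ ≤ A) (hB : ∀ x, ‖F'' x‖ ≤ B)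
    (a : ℤ) : ‖fc F a‖ ≤ (A + B) * wt a := by
  have hF'c : Continuous F' := by
    rw [continuous_iff_continuousAt]; exact fun x => (h' x).continuousAt
  have h1 := fc_deriv h hF'c hp a
  have h2 := fc_deriv h' hc hp' a
  have hA0 : 0 ≤ A := (norm_nonneg _).trans (hA 0)
  have hB0 : 0 ≤ B := (norm_nonneg _).trans (hB 0)
  rw [h1] at h2
  have h3 := norm_fc_le hB a
  have h4 := norm_fc_le hA a
  have h5 : ‖fc F'' a‖ = 4 * Real.pi ^ 2 * (a : ℝ) ^ 2 * ‖fc F a‖ := by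
    rw [h2]
    simp only [norm_mul, Complex.norm_I, Complex.norm_real, Complex.norm_intCast, RCLike.norm_ofNat,
      Real.norm_eq_abs, abs_of_pos Real.pi_pos, mul_one]
    rw [← sq_abs (a : ℝ)]
    ring
  have hpi : (1 : ℝ) ≤ 4 * Real.pi ^ 2 := by nlinarith [Real.pi_gt_three]
  have h6 : (a : ℝ) ^ 2 * ‖fc F a‖ ≤ B := by
    have : (a : ℝ) ^ 2 * ‖fc F a‖ ≤ 4 * Real.pi ^ 2 * ((a : ℝ) ^ 2 * ‖fc F a‖) :=
      le_mul_of_one_le_left (by positivity) hpi
    linarith [h5, h3]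
  unfold wt
  rw [mul_one_div, le_div_iff₀ (by positivity)]
  nlinarith

lemma fc_hasSum {F : ℝ → ℂ} (hF : Continuous F) (hp : ∀ x, F (x + 1) = F x)
    (hs : Summable (fc F)) (x : ℝ) : HasSum (fun a : ℤ => fc F a * e (a * x)) (F x) := by
  have hper : Function.Periodic F 1 := hp
  let f : C(AddCircle (1 : ℝ), ℂ) := ⟨hper.lift, by
    exact continuous_coinduced_dom.mpr hF⟩
  have hcoe : ∀ x : ℝ, f (x : AddCircle (1 : ℝ)) = F x := fun x => rfl
  have hfc : ∀ a : ℤ, fourierCoeff f a = fc F a := by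
    intro a
    rw [fourierCoeff_eq_intervalIntegral f a 0, fc]
    simp only [zero_add, one_div, inv_one, one_smul]
    apply intervalIntegral.integral_congr
    intro y _
    simp only [hcoe, fourier_coe_apply, smul_eq_mul]
    rw [mul_comm, e]
    congr 2
    push_cast
    ring
  have h := has_pointwise_sum_fourier_series_of_summable (T := (1 : ℝ)) (f := f)
    (by rw [show fourierCoeff f = fc F from funext hfc]; exact hs) (x : AddCircle (1 : ℝ))
  rw [hcoe] at h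
  convert h using 1
  ext a
  rw [hfc, fourier_coe_apply, smul_eq_mul, e]
  congr 2
  push_cast
  ring

/-- discrete orthogonality -/
lemma disc_orth {N : ℕ} (hN : 0 < N) (t : ℤ) :
    (1 / (N : ℂ)) * ∑ m : Fin N, e ((m : ℕ) * (t : ℂ) / N) = if (N : ℤ) ∣ t then 1 else 0 := by
  have hN' : (N : ℂ) ≠ 0 := by exact_mod_cast hN.ne'
  have h1 : ∀ m : Fin N, e ((m : ℕ) * (t : ℂ) / N) = e ((t : ℂ) / N) ^ (m : ℕ) := by
    intro m; rw [e_pow]; congr 1; ring
  simp_rw [h1]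
  rw [Fin.sum_univ_eq_sum_range (fun m => e ((t : ℂ) / N) ^ m) N]
  split_ifs with h
  · obtain ⟨s, rfl⟩ := h
    have : e (((N * s : ℤ) : ℂ) / N) = 1 := by
      have h2 : (((N * s : ℤ) : ℂ) / N) = (s : ℂ) := by
        push_cast; field_simp
      rw [h2, e_int]
    rw [this]
    simp [hN']
  · have hne : e ((t : ℂ) / N) ≠ 1 := by
      intro h2
      apply h
      rw [e, Complex.exp_eq_one_iff] at h2
      obtain ⟨s, hs⟩ := h2
      have h3 : (t : ℂ) / N = s := by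
        have hpi : (2 * Real.pi * Complex.I : ℂ) ≠ 0 := Complex.two_pi_I_ne_zero
        apply mul_left_cancel₀ hpi
        rw [hs]; ring
      refine ⟨s, ?_⟩
      have h4 : (t : ℂ) = N * s := by
        field_simp at h3
        linear_combination h3
      exact_mod_cast h4
    rw [geom_sum_eq hne, e_pow]
    have : e ((N : ℂ) * ((t : ℂ) / N)) = 1 := by
      have h2 : ((N : ℂ) * ((t : ℂ) / N)) = (t : ℂ) := by field_simp
      rw [h2, e_int]
    rw [this]
    simp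

end Pool.Agent.PD4.QW

end

/-!
# Project PD4 (MP_69cf13_gt), quantisation: elementary facts on `Sm n`
-/

section

open MeasureTheory
open scoped ContDiff

namespace Pool.Agent.PD4.QW

variable {n m : ℕ}

lemma Sm.cont (f : Sm n) : Continuous f.1 := f.2.1.continuous

lemma Sm.per_int (f : Sm n) (v : Fin n → ℝ) (i : Fin n) (k : ℤ) :
    f.1 (v + (k : ℝ) • Pi.single i 1) = f.1 v := by
  have h : Function.Periodic f.1 (Pi.single i 1) := fun x => f.2.2 x i
  have h2 := h.zsmul k v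
  rwa [← Int.cast_smul_eq_zsmul ℝ] at h2

lemma Sm.per_sum (f : Sm n) (v : Fin n → ℝ) (k : Fin n → ℤ) (s : Finset (Fin n)) :
    f.1 (v + ∑ i ∈ s, (k i : ℝ) • Pi.single i 1) = f.1 v := by
  classical
  induction s using Finset.induction_on with
  | empty => simp
  | insert a s ha ih =>
    rw [Finset.sum_insert ha, add_comm ((k a : ℝ) • Pi.single a 1), ← add_assoc, Sm.per_int, ih]

lemma Sm.fract (f : Sm n) (v : Fin n → ℝ) : f.1 v = f.1 (fun i => Int.fract (v i)) := by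
  have h := Sm.per_sum f (fun i => Int.fract (v i)) (fun i => ⌊v i⌋) Finset.univ
  rw [← h]
  refine congrArg f.1 (funext fun i => ?_)
  have : (∑ j : Fin n, ((⌊v j⌋ : ℤ) : ℝ) • (Pi.single j (1 : ℝ) : Fin n → ℝ)) i = ⌊v i⌋ := by
    rw [Finset.sum_apply]
    simp [Pi.single_apply]
  rw [Pi.add_apply, this]
  exact (Int.fract_add_floor (v i)).symm

lemma Sm.exists_bound (f : Sm n) : ∃ C : ℝ, 0 ≤ C ∧ ∀ v, ‖f.1 v‖ ≤ C := by
  have hc : IsCompact (Set.Icc (0 : Fin n → ℝ) 1) := isCompact_Icc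
  obtain ⟨C, hC⟩ := hc.exists_bound_of_continuousOn (Sm.cont f).continuousOn
  refine ⟨max C 0, le_max_right _ _, fun v => ?_⟩
  rw [Sm.fract]
  exact (hC _ ⟨fun i => Int.fract_nonneg _, fun i => (Int.fract_lt_one _).le⟩).trans
    (le_max_left _ _)

/-- a bound of `f` -/
noncomputable def bd (f : Sm n) : ℝ := (Sm.exists_bound f).choose

lemma bd_nonneg (f : Sm n) : 0 ≤ bd f := (Sm.exists_bound f).choose_spec.1

lemma le_bd (f : Sm n) (v : Fin n → ℝ) : ‖f.1 v‖ ≤ bd f := (Sm.exists_bound f).choose_spec.2 v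

lemma Sm.hasDerivAt_line (f : Sm n) (i : Fin n) (v : Fin n → ℝ) (t : ℝ) :
    HasDerivAt (fun t : ℝ => f.1 (v + t • Pi.single i 1)) ((pD i f).1 (v + t • Pi.single i 1)) t := by
  have h1 : HasFDerivAt f.1 (fderiv ℝ f.1 (v + t • Pi.single i 1)) (v + t • Pi.single i 1) :=
    ((f.2.1.differentiable (by simp)) _).hasFDerivAt
  have h2 : HasDerivAt (fun t : ℝ => v + t • (Pi.single i 1 : Fin n → ℝ)) (Pi.single i 1) t := by
    have := ((hasDerivAt_id t).smul_const (Pi.single i 1 : Fin n → ℝ)).const_add v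
    simpa using this
  exact h1.comp_hasDerivAt t h2

/-- the point `(x, y, z)` -/
def pt (x y : ℝ) (z : Fin n → ℝ) : Fin (n + 2) → ℝ :=
  Fin.cons x (Fin.cons y z : Fin (n + 1) → ℝ)

lemma pt_eq_x (x y : ℝ) (z : Fin n → ℝ) : pt x y z = pt 0 y z + x • Pi.single 0 1 := by
  ext i
  refine Fin.cases ?_ (fun j => ?_) i
  · simp [pt]
  · simp [pt]

lemma pt_eq_y (x y : ℝ) (z : Fin n → ℝ) : pt x y z = pt x 0 z + y • Pi.single 1 1 := by
  ext i
  refine Fin.cases ?_ (fun j => ?_) i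
  · simp [pt]
  · refine Fin.cases ?_ (fun k => ?_) j
    · simp [pt]
    · simp [pt, Fin.ext_iff]

/-- `f` as a function of the first two variables, the others being fixed -/
def f2 (f : Sm (n + 2)) (z : Fin n → ℝ) (x y : ℝ) : ℂ := f.1 (pt x y z)

lemma f2_le (f : Sm (n + 2)) (z : Fin n → ℝ) (x y : ℝ) : ‖f2 f z x y‖ ≤ bd f := le_bd f _

lemma f2_dx (f : Sm (n + 2)) (z : Fin n → ℝ) (x y : ℝ) :
    HasDerivAt (fun x => f2 f z x y) (f2 (pD 0 f) z x y) x := by
  have := Sm.hasDerivAt_line f 0 (pt 0 y z) x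
  simp only [← pt_eq_x] at this
  exact this

lemma f2_dy (f : Sm (n + 2)) (z : Fin n → ℝ) (x y : ℝ) :
    HasDerivAt (fun y => f2 f z x y) (f2 (pD 1 f) z x y) y := by
  have := Sm.hasDerivAt_line f 1 (pt x 0 z) y
  simp only [← pt_eq_y] at this
  exact this

lemma f2_per_x (f : Sm (n + 2)) (z : Fin n → ℝ) (x y : ℝ) (k : ℤ) :
    f2 f z (x + k) y = f2 f z x y := by
  unfold f2
  rw [pt_eq_x, pt_eq_x x, add_smul, ← add_assoc, Sm.per_int]

lemma f2_per_y (f : Sm (n + 2)) (z : Fin n → ℝ) (x y : ℝ) (k : ℤ) :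
    f2 f z x (y + k) = f2 f z x y := by
  unfold f2
  rw [pt_eq_y, pt_eq_y x y, add_smul, ← add_assoc, Sm.per_int]

lemma f2_cont_x (f : Sm (n + 2)) (z : Fin n → ℝ) (y : ℝ) : Continuous fun x => f2 f z x y := by
  rw [continuous_iff_continuousAt]; exact fun x => (f2_dx f z x y).continuousAt

lemma f2_cont_y (f : Sm (n + 2)) (z : Fin n → ℝ) (x : ℝ) : Continuous fun y => f2 f z x y := by
  rw [continuous_iff_continuousAt]; exact fun y => (f2_dy f z x y).continuousAt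

lemma f2_mul (f g : Sm (n + 2)) (z : Fin n → ℝ) (x y : ℝ) :
    f2 (f * g) z x y = f2 f z x y * f2 g z x y := rfl

/-- Taylor estimate in `y` -/
lemma taylor_y (f : Sm (n + 2)) (z : Fin n → ℝ) (x y s : ℝ) :
    ‖f2 f z x (y - s) - f2 f z x y + s * f2 (pD 1 f) z x y‖ ≤ s ^ 2 * bd (pD 1 (pD 1 f)) := by
  -- derivative estimate
  have hd1 : ∀ t : ℝ, ‖f2 (pD 1 f) z x (y - t) - f2 (pD 1 f) z x y‖ ≤
      bd (pD 1 (pD 1 f)) * |t| := by
    intro t
    have := Convex.norm_image_sub_le_of_norm_hasDerivWithin_le (s := Set.univ)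
      (f := fun y => f2 (pD 1 f) z x y) (f' := fun y => f2 (pD 1 (pD 1 f)) z x y)
      (C := bd (pD 1 (pD 1 f))) (x := y) (y := y - t)
      (fun y _ => (f2_dy (pD 1 f) z x y).hasDerivWithinAt)
      (fun y _ => f2_le _ _ _ _) convex_univ (Set.mem_univ _) (Set.mem_univ _)
    simpa using this
  have hφ : ∀ t : ℝ, HasDerivAt (fun t : ℝ => f2 f z x (y - t) - f2 f z x y +
      (t : ℂ) * f2 (pD 1 f) z x y) (-(f2 (pD 1 f) z x (y - t)) + f2 (pD 1 f) z x y) t := by
    intro t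
    have h1 : HasDerivAt (fun t : ℝ => f2 f z x (y - t)) ((-1 : ℝ) • f2 (pD 1 f) z x (y - t)) t := by
      exact (f2_dy f z x (y - t)).scomp t ((hasDerivAt_id t).const_sub y)
    have h2 : HasDerivAt (fun t : ℝ => (t : ℂ) * f2 (pD 1 f) z x y) (1 * f2 (pD 1 f) z x y) t :=
      (Complex.ofRealCLM.hasDerivAt (x := t)).mul_const _
    have h3 := (h1.sub_const (f2 f z x y)).add h2
    refine h3.congr_deriv ?_
    rw [one_mul, neg_one_smul]
  have := Convex.norm_image_sub_le_of_norm_hasDerivWithin_le (s := Set.uIcc 0 s)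
      (f := fun t : ℝ => f2 f z x (y - t) - f2 f z x y + (t : ℂ) * f2 (pD 1 f) z x y)
      (f' := fun t => -(f2 (pD 1 f) z x (y - t)) + f2 (pD 1 f) z x y)
      (C := bd (pD 1 (pD 1 f)) * |s|) (x := 0) (y := s)
      (fun t _ => (hφ t).hasDerivWithinAt)
      (fun t ht => by
        have h1 := hd1 t
        rw [neg_add_eq_sub, norm_sub_rev]
        refine h1.trans (mul_le_mul_of_nonneg_left ?_ (bd_nonneg _))
        rcases le_total 0 s with hs | hs
        · rw [Set.uIcc_of_le hs] at ht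
          rw [abs_of_nonneg ht.1, abs_of_nonneg hs]; exact ht.2
        · rw [Set.uIcc_of_ge hs] at ht
          rw [abs_of_nonpos ht.2, abs_of_nonpos hs]; linarith [ht.1])
      (convex_uIcc 0 s) Set.left_mem_uIcc Set.right_mem_uIcc
  simp only [Complex.ofReal_zero, zero_mul, sub_zero, sub_self, add_zero, Real.norm_eq_abs] at this
  calc _ ≤ _ := this
    _ = _ := by rw [mul_assoc, ← pow_two, sq_abs]; ring

end Pool.Agent.PD4.QW

end

/-!
# Project PD4 (MP_69cf13_gt), quantisation: discrete Fourier sums and row sums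
-/

section

open MeasureTheory
open scoped ContDiff

namespace Pool.Agent.PD4.QW

variable {n : ℕ}

/-- discrete Fourier sum of `F` at frequency `-t` -/
noncomputable def dz (N : ℕ) (F : ℝ → ℂ) (t : ℤ) : ℂ :=
  (1 / (N : ℂ)) * ∑ l : Fin N, e ((l : ℕ) * (t : ℂ) / N) * F ((l : ℕ) / (N : ℝ))

lemma dz_add (N : ℕ) (F G : ℝ → ℂ) (t : ℤ) : dz N (fun x => F x + G x) t = dz N F t + dz N G t := by
  simp only [dz, mul_add, Finset.sum_add_distrib]

lemma dz_sub (N : ℕ) (F G : ℝ → ℂ) (t : ℤ) : dz N (fun x => F x - G x) t = dz N F t - dz N G t := by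
  simp only [dz, mul_sub, Finset.sum_sub_distrib]

lemma dz_smul (N : ℕ) (c : ℂ) (F : ℝ → ℂ) (t : ℤ) : dz N (fun x => c * F x) t = c * dz N F t := by
  simp only [dz, Finset.mul_sum]
  refine Finset.sum_congr rfl fun l _ => ?_
  ring

lemma dz_per {N : ℕ} (hN : 0 < N) (F : ℝ → ℂ) (t s : ℤ) : dz N F (t + N * s) = dz N F t := by
  have hN' : (N : ℂ) ≠ 0 := by exact_mod_cast hN.ne'
  simp only [dz]
  congr 1
  refine Finset.sum_congr rfl fun l _ => ?_
  congr 1
  have : ((l : ℕ) : ℂ) * ((t + N * s : ℤ) : ℂ) / N = ((l : ℕ) : ℂ) * (t : ℂ) / N +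
      ((((l : ℕ) : ℤ) * s : ℤ) : ℂ) := by
    push_cast; field_simp
  rw [this, e_add, e_int, mul_one]

/-- multiplication by a function with an absolutely convergent Fourier series -/
lemma dz_mul (N : ℕ) (F G : ℝ → ℂ) (c : ℤ → ℂ)
    (hG : ∀ x : ℝ, HasSum (fun a : ℤ => c a * e (a * (x : ℂ))) (G x)) (t : ℤ) :
    HasSum (fun a : ℤ => c a * dz N F (t + a)) (dz N (fun x => G x * F x) t) := by
  have h : HasSum (fun a : ℤ => (1 / (N : ℂ)) * ∑ l : Fin N,
      (e ((l : ℕ) * (t : ℂ) / N) * F ((l : ℕ) / (N : ℝ))) *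
        (c a * e (a * (((l : ℕ) / (N : ℝ) : ℝ) : ℂ))))
      ((1 / (N : ℂ)) * ∑ l : Fin N, (e ((l : ℕ) * (t : ℂ) / N) * F ((l : ℕ) / (N : ℝ))) *
        G ((l : ℕ) / (N : ℝ))) :=
    (hasSum_sum fun l _ => (hG _).mul_left _).mul_left _
  have e1 : (dz N (fun x => G x * F x) t) = ((1 / (N : ℂ)) * ∑ l : Fin N,
      (e ((l : ℕ) * (t : ℂ) / N) * F ((l : ℕ) / (N : ℝ))) * G ((l : ℕ) / (N : ℝ))) := by
    simp only [dz]
    congr 1
    refine Finset.sum_congr rfl fun l _ => ?_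
    ring
  rw [e1]
  convert h using 1
  ext a
  simp only [dz]
  rw [mul_left_comm]
  congr 1
  rw [Finset.mul_sum]
  refine Finset.sum_congr rfl fun l _ => ?_
  have : e ((l : ℕ) * ((t + a : ℤ) : ℂ) / N) = e ((l : ℕ) * (t : ℂ) / N) *
      e (a * (((l : ℕ) / (N : ℝ) : ℝ) : ℂ)) := by
    rw [← e_add]
    congr 1
    push_cast
    ring
  rw [this]
  ring

lemma dz_one {N : ℕ} (hN : 0 < N) (t : ℤ) :
    dz N (fun _ => 1) t = if (N : ℤ) ∣ t then 1 else 0 := by
  rw [← disc_orth hN t]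
  simp [dz]

/-- expansion of `dz` -/
lemma dz_hasSum {N : ℕ} (hN : 0 < N) (G : ℝ → ℂ) (c : ℤ → ℂ)
    (hG : ∀ x : ℝ, HasSum (fun a : ℤ => c a * e (a * (x : ℂ))) (G x)) (t : ℤ) :
    HasSum (fun a : ℤ => c a * (if (N : ℤ) ∣ t + a then 1 else 0)) (dz N G t) := by
  have h := dz_mul N (fun _ => 1) G c hG t
  simp only [dz_one hN, mul_one] at h
  exact h

/-- sum of a family of rows -/
lemma rowsum {N : ℕ} {κ : ℝ} (T : ℤ → Fin N → ℂ) (E : Fin N → ℂ)
    (hE : ∀ l, HasSum (fun c => T c l) (E l)) (h : ∀ c, ∑ l, ‖T c l‖ ≤ κ * wt c) :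
    ∑ l, ‖E l‖ ≤ κ * Wt := by
  have hs : ∀ l, Summable fun c => ‖T c l‖ := by
    intro l
    refine Summable.of_nonneg_of_le (fun _ => norm_nonneg _) (fun c => ?_)
      (wt_summable.mul_left κ)
    exact (Finset.single_le_sum (f := fun l => ‖T c l‖) (fun _ _ => norm_nonneg _)
      (Finset.mem_univ l)).trans (h c)
  calc ∑ l, ‖E l‖ ≤ ∑ l, ∑' c, ‖T c l‖ := Finset.sum_le_sum fun l _ => by
        rw [← (hE l).tsum_eq]; exact norm_tsum_le_tsum_norm (hs l)
    _ = ∑' c, ∑ l, ‖T c l‖ := (Summable.tsum_finsetSum fun l _ => hs l).symm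
    _ ≤ ∑' c, κ * wt c := Summable.tsum_le_tsum h (summable_sum fun l _ => hs l)
        (wt_summable.mul_left κ)
    _ = κ * Wt := tsum_mul_left

/-- exactly one residue -/
lemma sum_res_le {N : ℕ} (hN : 0 < N) (t : ℤ) :
    ∑ k : Fin N, (if (N : ℤ) ∣ t - (k : ℕ) then (1 : ℝ) else 0) ≤ 1 := by
  rw [Finset.sum_boole]
  have : (Finset.univ.filter fun k : Fin N => (N : ℤ) ∣ t - (k : ℕ)).card ≤ 1 := by
    rw [Finset.card_le_one]
    intro a ha b hb
    simp only [Finset.mem_filter, Finset.mem_univ, true_and] at ha hb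
    have h1 : (N : ℤ) ∣ ((a : ℕ) : ℤ) - (b : ℕ) := by
      have := dvd_sub hb ha
      rwa [show t - ((b : ℕ) : ℤ) - (t - ((a : ℕ) : ℤ)) = ((a : ℕ) : ℤ) - (b : ℕ) by ring] at this
    have h2 : ((a : ℕ) : ℤ) - (b : ℕ) = 0 := by
      apply Int.eq_zero_of_abs_lt_dvd h1
      rw [abs_lt]
      have := a.2; have := b.2
      constructor <;> omega
    exact Fin.ext (by omega)
  exact_mod_cast this

lemma sum_res {N : ℕ} (hN : 0 < N) (Φ : ℤ → ℂ) (hΦ : ∀ t s, Φ (t + N * s) = Φ t) (t : ℤ) :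
    ∑ k : Fin N, Φ (k : ℕ) * (if (N : ℤ) ∣ ((k : ℕ) : ℤ) - t then 1 else 0) = Φ t := by
  have hN' : (0 : ℤ) < N := by exact_mod_cast hN
  have h0 : 0 ≤ t % N := Int.emod_nonneg _ hN'.ne'
  have h1 : t % N < N := Int.emod_lt_of_pos _ hN'
  let k₀ : Fin N := ⟨(t % N).toNat, by omega⟩
  have hk₀ : (((k₀ : Fin N) : ℕ) : ℤ) = t % N := by
    simp only [k₀]; omega
  rw [Finset.sum_eq_single k₀]
  · rw [hk₀]
    have h2 : (N : ℤ) ∣ t % N - t := by
      rw [Int.emod_def]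
      exact ⟨-(t / N), by ring⟩
    rw [if_pos h2, mul_one]
    have h3 : t = t % N + N * (t / N) := (Int.emod_add_mul_ediv t N).symm
    conv_rhs => rw [h3, hΦ]
  · intro b _ hb
    rw [if_neg, mul_zero]
    intro h
    apply hb
    have h2 : (N : ℤ) ∣ ((b : ℕ) : ℤ) - t % N := by
      have h3 : (N : ℤ) ∣ t - t % N := by
        rw [Int.emod_def]
        exact ⟨(t / N), by ring⟩
      have := dvd_add h h3
      rwa [show ((b : ℕ) : ℤ) - t + (t - t % N) = ((b : ℕ) : ℤ) - t % N by ring] at this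
    have h4 : ((b : ℕ) : ℤ) - t % N = 0 := by
      apply Int.eq_zero_of_abs_lt_dvd h2
      rw [abs_lt]
      have := b.2
      constructor <;> omega
    exact Fin.ext (by omega)
  · intro h; exact absurd (Finset.mem_univ _) h

/-- **row sum bound** for `dz` -/
lemma dz_row {N : ℕ} (hN : 0 < N) {K : ℝ} (F : Fin N → ℝ → ℂ) (c : Fin N → ℤ → ℂ)
    (hF : ∀ (k : Fin N) (x : ℝ), HasSum (fun a : ℤ => c k a * e (a * (x : ℂ))) (F k x))
    (hc : ∀ k a, ‖c k a‖ ≤ K * wt a) (t : ℤ) :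
    ∑ k : Fin N, ‖dz N (F k) (t - (k : ℕ))‖ ≤ K * Wt := by
  refine rowsum (fun a k => c k a * (if (N : ℤ) ∣ (t - (k : ℕ)) + a then 1 else 0)) _
    (fun k => dz_hasSum hN (F k) (c k) (hF k) _) (fun a => ?_)
  have hK : 0 ≤ K * wt a := (norm_nonneg _).trans (hc ⟨0, hN⟩ a)
  calc ∑ k : Fin N, ‖c k a * (if (N : ℤ) ∣ (t - (k : ℕ)) + a then (1 : ℂ) else 0)‖
      ≤ ∑ k : Fin N, K * wt a * (if (N : ℤ) ∣ (t + a) - (k : ℕ) then (1 : ℝ) else 0) := by
        refine Finset.sum_le_sum fun k _ => ?_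
        rw [norm_mul]
        have e1 : t + a - ((k : ℕ) : ℤ) = (t - (k : ℕ)) + a := by ring
        rw [e1]
        split_ifs
        · simpa using hc k a
        · simp
    _ = K * wt a * ∑ k : Fin N, (if (N : ℤ) ∣ (t + a) - (k : ℕ) then (1 : ℝ) else 0) := by
        rw [Finset.mul_sum]
    _ ≤ K * wt a * 1 := mul_le_mul_of_nonneg_left (sum_res_le hN _) hK
    _ = K * wt a := mul_one _

/-! ### Fourier series of slices -/

/-- Fourier coefficient in the first variable -/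
noncomputable def cx (f : Sm (n + 2)) (z : Fin n → ℝ) (y : ℝ) (a : ℤ) : ℂ :=
  fc (fun x => f2 f z x y) a

/-- constant -/
noncomputable def KK (f : Sm (n + 2)) : ℝ := bd f + bd (pD 0 (pD 0 f))

lemma KK_nonneg (f : Sm (n + 2)) : 0 ≤ KK f := add_nonneg (bd_nonneg _) (bd_nonneg _)

lemma f2_one_zero_x (f : Sm (n + 2)) (z : Fin n → ℝ) (y : ℝ) : f2 f z 1 y = f2 f z 0 y := by
  have := f2_per_x f z 0 y 1
  simpa using this

lemma cx_bound (f : Sm (n + 2)) (z : Fin n → ℝ) (y : ℝ) (a : ℤ) :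
    ‖cx f z y a‖ ≤ KK f * wt a :=
  fc_bound (fun x => f2_dx f z x y) (fun x => f2_dx (pD 0 f) z x y) (f2_cont_x _ _ _)
    (f2_one_zero_x _ _ _) (f2_one_zero_x _ _ _) (fun x => f2_le _ _ _ _) (fun x => f2_le _ _ _ _) a

lemma cx_hasSum (f : Sm (n + 2)) (z : Fin n → ℝ) (y x : ℝ) :
    HasSum (fun a : ℤ => cx f z y a * e (a * (x : ℂ))) (f2 f z x y) := by
  refine fc_hasSum (F := fun x => f2 f z x y) (f2_cont_x _ _ _)
    (fun x => by have := f2_per_x f z x y 1; simpa using this) ?_ x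
  exact Summable.of_norm_bounded (wt_summable.mul_left (KK f)) (fun a => cx_bound f z y a)

lemma cx_deriv (f : Sm (n + 2)) (z : Fin n → ℝ) (y : ℝ) (a : ℤ) :
    cx (pD 0 f) z y a = 2 * Real.pi * Complex.I * a * cx f z y a :=
  fc_deriv (fun x => f2_dx f z x y) (f2_cont_x _ _ _) (f2_one_zero_x _ _ _) a

lemma cx_sq (f : Sm (n + 2)) (z : Fin n → ℝ) (y : ℝ) (a : ℤ) :
    (a : ℝ) ^ 2 * ‖cx f z y a‖ ≤ KK (pD 0 (pD 0 f)) * wt a := by
  have h := cx_bound (pD 0 (pD 0 f)) z y a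
  rw [cx_deriv, cx_deriv] at h
  refine le_trans ?_ h
  simp only [norm_mul, Complex.norm_I, Complex.norm_real, Complex.norm_intCast, RCLike.norm_ofNat,
    Real.norm_eq_abs, abs_of_pos Real.pi_pos, mul_one]
  have hpi : (1 : ℝ) ≤ 4 * Real.pi ^ 2 := by nlinarith [Real.pi_gt_three]
  calc (a : ℝ) ^ 2 * ‖cx f z y a‖ ≤ 4 * Real.pi ^ 2 * ((a : ℝ) ^ 2 * ‖cx f z y a‖) :=
        le_mul_of_one_le_left (by positivity) hpi
    _ = _ := by rw [← sq_abs (a : ℝ)]; ring

end Pool.Agent.PD4.QW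

end

/-!
# Project PD4 (MP_69cf13_gt), quantisation: star product estimate, Riemann sums
-/

section

open MeasureTheory
open scoped ContDiff

namespace Pool.Agent.PD4.QW

variable {n : ℕ}

/-- `opN` evaluated at `z` -/
noncomputable def dop (N : ℕ) (f : Sm (n + 2)) (z : Fin n → ℝ) : Matrix (Fin N) (Fin N) ℂ :=
  fun j k => dz N (fun x => f2 f z x ((k : ℕ) / (N : ℝ))) (((j : ℕ) : ℤ) - (k : ℕ))

lemma opN_apply (N : ℕ) (f : Sm (n + 2)) (z : Fin n → ℝ) (j k : Fin N) :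
    (opN N f j k).1 z = dop N f z j k := by
  have h1 : ∀ (c : ℂ) (g : Sm n), (c • g).1 z = c * g.1 z := fun _ _ => rfl
  have h2 : ∀ (s : Finset (Fin N)) (g : Fin N → Sm n), (∑ l ∈ s, g l).1 z = ∑ l ∈ s, (g l).1 z := by
    intro s g
    have := map_sum (Sm.ev z) g s
    exact this
  rw [opN, h1, h2, dop, dz]
  congr 1
  refine Finset.sum_congr rfl fun l _ => ?_
  rw [h1, e]
  congr 2
  push_cast
  ring

lemma dop_row {N : ℕ} (hN : 0 < N) (f : Sm (n + 2)) (z : Fin n → ℝ) (j : Fin N) :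
    ∑ k, ‖dop N f z j k‖ ≤ KK f * Wt := by
  exact dz_row hN (fun k x => f2 f z x ((k : ℕ) / (N : ℝ)))
    (fun k a => cx f z ((k : ℕ) / (N : ℝ)) a) (fun k x => cx_hasSum f z _ x)
    (fun k a => cx_bound f z _ a) (j : ℕ)

/-- the Taylor remainder of the translation by `s` in `y` -/
noncomputable def tay (f : Sm (n + 2)) (z : Fin n → ℝ) (y s : ℝ) (x : ℝ) : ℂ :=
  f2 f z x (y - s) - f2 f z x y + s * f2 (pD 1 f) z x y

lemma tay_deriv (f : Sm (n + 2)) (z : Fin n → ℝ) (y s : ℝ) (x : ℝ) :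
    HasDerivAt (tay f z y s) (tay (pD 0 f) z y s x) x := by
  unfold tay
  have h := ((f2_dx f z x (y - s)).sub (f2_dx f z x y)).add
    ((f2_dx (pD 1 f) z x y).const_mul (s : ℂ))
  rw [pD_comm] at h
  exact h

lemma tay_per (f : Sm (n + 2)) (z : Fin n → ℝ) (y s : ℝ) (x : ℝ) :
    tay f z y s (x + 1) = tay f z y s x := by
  have h := fun (g : Sm (n + 2)) (y : ℝ) => f2_per_x g z x y 1
  simp only [Int.cast_one] at h
  simp only [tay, h]

/-- constant -/
noncomputable def KY (f : Sm (n + 2)) : ℝ :=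
  bd (pD 1 (pD 1 f)) + bd (pD 1 (pD 1 (pD 0 (pD 0 f))))

lemma KY_nonneg (f : Sm (n + 2)) : 0 ≤ KY f := add_nonneg (bd_nonneg _) (bd_nonneg _)

lemma tay_fc (f : Sm (n + 2)) (z : Fin n → ℝ) (y s : ℝ) (a : ℤ) :
    ‖fc (tay f z y s) a‖ ≤ s ^ 2 * KY f * wt a := by
  have h0 : tay f z y s 1 = tay f z y s 0 := by
    have := tay_per f z y s 0; simpa using this
  have h1 : tay (pD 0 f) z y s 1 = tay (pD 0 f) z y s 0 := by
    have := tay_per (pD 0 f) z y s 0; simpa using this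
  have hc : Continuous (tay (pD 0 (pD 0 f)) z y s) := by
    rw [continuous_iff_continuousAt]; exact fun x => (tay_deriv _ z y s x).continuousAt
  have := fc_bound (tay_deriv f z y s) (tay_deriv (pD 0 f) z y s) hc h0 h1
    (fun x => taylor_y f z x y s) (fun x => taylor_y (pD 0 (pD 0 f)) z x y s) a
  rwa [← mul_add] at this

lemma tay_hasSum (f : Sm (n + 2)) (z : Fin n → ℝ) (y s : ℝ) (x : ℝ) :
    HasSum (fun a : ℤ => fc (tay f z y s) a * e (a * (x : ℂ))) (tay f z y s x) := by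
  have hc : Continuous (tay f z y s) := by
    rw [continuous_iff_continuousAt]; exact fun x => (tay_deriv _ z y s x).continuousAt
  refine fc_hasSum hc (tay_per f z y s) ?_ x
  exact Summable.of_norm_bounded (wt_summable.mul_left _) (fun a => tay_fc f z y s a)

/-- the error of the star product -/
noncomputable def perr (N : ℕ) (f g : Sm (n + 2)) (z : Fin n → ℝ) : Matrix (Fin N) (Fin N) ℂ :=
  dop N f z * dop N g z - dop N (f * g) z +
    (1 / (2 * Real.pi * Complex.I * N)) • dop N (pD 1 f * pD 0 g) z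

lemma perr_hasSum {N : ℕ} (hN : 0 < N) (f g : Sm (n + 2)) (z : Fin n → ℝ) (j l : Fin N) :
    HasSum (fun c : ℤ => cx g z ((l : ℕ) / (N : ℝ)) c *
      dz N (tay f z ((l : ℕ) / (N : ℝ)) (c / N)) (((j : ℕ) : ℤ) + c - (l : ℕ)))
      (perr N f g z j l) := by
  have hN' : (N : ℂ) ≠ 0 := by exact_mod_cast hN.ne'
  have hNr : (N : ℝ) ≠ 0 := by exact_mod_cast hN.ne'
  set y : ℝ := (l : ℕ) / (N : ℝ) with hy
  -- first piece
  have h1 : HasSum (fun c : ℤ => cx g z y c *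
      dz N (fun x => f2 f z x (y - c / N)) (((j : ℕ) : ℤ) + c - (l : ℕ)))
      ((dop N f z * dop N g z) j l) := by
    rw [Matrix.mul_apply]
    have h : HasSum (fun c : ℤ => ∑ k : Fin N, dop N f z j k * (cx g z y c *
        (if (N : ℤ) ∣ (((k : ℕ) : ℤ) - (l : ℕ)) + c then 1 else 0)))
        (∑ k : Fin N, dop N f z j k * dop N g z k l) :=
      hasSum_sum fun k _ => (dz_hasSum hN (fun x => f2 g z x y) (cx g z y)
        (fun x => cx_hasSum g z y x) _).mul_left _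
    convert h using 1
    ext c
    have h2 := sum_res hN (fun t : ℤ => dz N (fun x => f2 f z x ((t : ℝ) / N)) (((j : ℕ) : ℤ) - t))
      (by
        intro t s
        have e1 : (((j : ℕ) : ℤ) - (t + N * s)) = (((j : ℕ) : ℤ) - t) + N * (-s) := by ring
        have e2 : (((t + N * s : ℤ) : ℝ) / N) = (t : ℝ) / N + (s : ℤ) := by
          push_cast; field_simp
        simp only [e1, e2, f2_per_y, dz_per hN]) ((l : ℕ) - c)
    have e3 : ((((l : ℕ) : ℤ) - c : ℤ) : ℝ) / N = y - c / N := by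
      rw [hy]; push_cast; ring
    have e4 : (((j : ℕ) : ℤ) - (((l : ℕ) : ℤ) - c)) = (((j : ℕ) : ℤ) + c - (l : ℕ)) := by ring
    rw [e3, e4] at h2
    rw [← h2, Finset.mul_sum]
    refine Finset.sum_congr rfl fun k _ => ?_
    have e5 : (((k : ℕ) : ℤ) - (((l : ℕ) : ℤ) - c)) = (((k : ℕ) : ℤ) - (l : ℕ)) + c := by ring
    rw [e5]
    simp only [dop, Int.cast_natCast]
    ring
  -- second piece
  have h2 : HasSum (fun c : ℤ => cx g z y c *
      dz N (fun x => f2 f z x y) (((j : ℕ) : ℤ) + c - (l : ℕ))) (dop N (f * g) z j l) := by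
    have h := dz_mul N (fun x => f2 f z x y) (fun x => f2 g z x y) (cx g z y)
      (fun x => cx_hasSum g z y x) (((j : ℕ) : ℤ) - (l : ℕ))
    convert h using 1
    · ext c
      rw [show ((j : ℕ) : ℤ) + c - (l : ℕ) = ((j : ℕ) : ℤ) - (l : ℕ) + c by ring]
    · simp only [dop, f2_mul, ← hy]
      congr 1
      ext x
      ring
  -- third piece
  have h3 : HasSum (fun c : ℤ => cx (pD 0 g) z y c *
      dz N (fun x => f2 (pD 1 f) z x y) (((j : ℕ) : ℤ) + c - (l : ℕ)))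
      (dop N (pD 1 f * pD 0 g) z j l) := by
    have h := dz_mul N (fun x => f2 (pD 1 f) z x y) (fun x => f2 (pD 0 g) z x y) (cx (pD 0 g) z y)
      (fun x => cx_hasSum (pD 0 g) z y x) (((j : ℕ) : ℤ) - (l : ℕ))
    convert h using 1
    · ext c
      rw [show ((j : ℕ) : ℤ) + c - (l : ℕ) = ((j : ℕ) : ℤ) - (l : ℕ) + c by ring]
    · simp only [dop, f2_mul, ← hy]
      congr 1
      ext x
      ring
  have h4 := (h1.sub h2).add (h3.mul_left (1 / (2 * Real.pi * Complex.I * N)))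
  have hpe : perr N f g z j l = (dop N f z * dop N g z) j l - dop N (f * g) z j l +
      (1 / (2 * Real.pi * Complex.I * N)) * dop N (pD 1 f * pD 0 g) z j l := rfl
  rw [hpe]
  refine h4.congr_fun fun c => ?_
  have hpi : (2 * Real.pi * Complex.I : ℂ) ≠ 0 := Complex.two_pi_I_ne_zero
  have e6 : tay f z y ((c : ℝ) / (N : ℝ)) = fun x : ℝ => (f2 f z x (y - (c : ℝ) / (N : ℝ)) -
      f2 f z x y) + ((((c : ℝ) / (N : ℝ) : ℝ) : ℂ) * f2 (pD 1 f) z x y) := rfl
  rw [e6, dz_add, dz_sub, dz_smul, cx_deriv]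
  push_cast
  have e7 : (1 / (2 * Real.pi * Complex.I * N) : ℂ) * (2 * Real.pi * Complex.I * c * cx g z y c *
      dz N (fun x => f2 (pD 1 f) z x y) (((j : ℕ) : ℤ) + c - (l : ℕ))) =
      (c / N) * cx g z y c * dz N (fun x => f2 (pD 1 f) z x y) (((j : ℕ) : ℤ) + c - (l : ℕ)) := by
    field_simp
  rw [e7]
  ring

/-- **star product estimate** -/
lemma perr_row {N : ℕ} (hN : 0 < N) (f g : Sm (n + 2)) (z : Fin n → ℝ) (j : Fin N) :
    ∑ l, ‖perr N f g z j l‖ ≤ (KK (pD 0 (pD 0 g)) * KY f * Wt * Wt) / (N : ℝ) ^ 2 := by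
  have hNr : (0 : ℝ) < N := by exact_mod_cast hN
  have h := rowsum (κ := (KK (pD 0 (pD 0 g)) * KY f * Wt) / (N : ℝ) ^ 2)
    (fun c l => cx g z ((l : ℕ) / (N : ℝ)) c *
      dz N (tay f z ((l : ℕ) / (N : ℝ)) (c / N)) (((j : ℕ) : ℤ) + c - (l : ℕ)))
    (fun l => perr N f g z j l) (fun l => perr_hasSum hN f g z j l) (fun c => ?_)
  · refine h.trans (le_of_eq ?_)
    ring
  · have h2 := dz_row hN (K := KK (pD 0 (pD 0 g)) * KY f / (N : ℝ) ^ 2 * wt c)
      (fun l x => cx g z ((l : ℕ) / (N : ℝ)) c * tay f z ((l : ℕ) / (N : ℝ)) (c / N) x)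
      (fun l a => cx g z ((l : ℕ) / (N : ℝ)) c * fc (tay f z ((l : ℕ) / (N : ℝ)) (c / N)) a)
      (fun l x => by
        have := (tay_hasSum f z ((l : ℕ) / (N : ℝ)) (c / N) x).mul_left
          (cx g z ((l : ℕ) / (N : ℝ)) c)
        simpa only [mul_assoc] using this)
      (fun l a => by
        rw [norm_mul]
        have h3 := tay_fc f z ((l : ℕ) / (N : ℝ)) (c / N) a
        have h4 := cx_sq g z ((l : ℕ) / (N : ℝ)) c
        calc ‖cx g z ((l : ℕ) / (N : ℝ)) c‖ * ‖fc (tay f z ((l : ℕ) / (N : ℝ)) (c / N)) a‖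
            ≤ ‖cx g z ((l : ℕ) / (N : ℝ)) c‖ * (((c : ℝ) / N) ^ 2 * KY f * wt a) :=
              mul_le_mul_of_nonneg_left h3 (norm_nonneg _)
          _ = ((c : ℝ) ^ 2 * ‖cx g z ((l : ℕ) / (N : ℝ)) c‖) * (KY f / (N : ℝ) ^ 2 * wt a) := by
              rw [div_pow]; ring
          _ ≤ (KK (pD 0 (pD 0 g)) * wt c) * (KY f / (N : ℝ) ^ 2 * wt a) :=
              mul_le_mul_of_nonneg_right h4
                (mul_nonneg (div_nonneg (KY_nonneg _) (by positivity)) (wt_nonneg _))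
          _ = _ := by ring)
      (((j : ℕ) : ℤ) + c)
    simp only [dz_smul] at h2
    refine h2.trans (le_of_eq ?_)
    ring

end Pool.Agent.PD4.QW

end

/-!
# Project PD4 (MP_69cf13_gt), quantisation: traces, Riemann sums, Fubini
-/

section

open MeasureTheory
open scoped ContDiff

namespace Pool.Agent.PD4.QW

variable {n : ℕ}

/-- Riemann sums of functions with fast decaying Fourier coefficients -/
lemma riem {N : ℕ} (hN : 0 < N) (F : ℝ → ℂ) (c : ℤ → ℂ) {K : ℝ}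
    (hF : ∀ x : ℝ, HasSum (fun a : ℤ => c a * e (a * (x : ℂ))) (F x))
    (hc : ∀ a : ℤ, (a : ℝ) ^ 2 * ‖c a‖ ≤ K * wt a) :
    ‖dz N F 0 - c 0‖ ≤ K * Wt / (N : ℝ) ^ 2 := by
  have hNr : (0 : ℝ) < N := by exact_mod_cast hN
  have h1 := (dz_hasSum hN F c hF 0).sub (hasSum_ite_eq (0 : ℤ) (c 0))
  have hK : ∀ a : ℤ, 0 ≤ K * wt a := fun a => le_trans (by positivity) (hc a)
  rw [← h1.tsum_eq]
  have h2 : HasSum (fun a : ℤ => (K / (N : ℝ) ^ 2) * wt a) ((K / (N : ℝ) ^ 2) * Wt) :=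
    wt_summable.hasSum.mul_left _
  refine (tsum_of_norm_bounded h2 fun a => ?_).trans (le_of_eq (by ring))
  have h0 : 0 ≤ K / (N : ℝ) ^ 2 * wt a := by
    have := hK a
    rw [div_mul_eq_mul_div]; positivity
  by_cases ha : a = 0
  · subst ha
    simpa using h0
  · rw [if_neg ha, sub_zero, zero_add]
    split_ifs with hd
    · rw [mul_one]
      have hNa : (N : ℝ) ^ 2 ≤ (a : ℝ) ^ 2 := by
        obtain ⟨s, rfl⟩ := hd
        have hs : s ≠ 0 := by rintro rfl; simp at ha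
        have : (1 : ℝ) ≤ (s : ℝ) ^ 2 := by
          have h3 : (1 : ℤ) ≤ s ^ 2 := by
            have := sq_nonneg s
            have h4 : s ^ 2 ≠ 0 := pow_ne_zero 2 hs
            omega
          exact_mod_cast h3
        push_cast
        nlinarith [sq_nonneg (N : ℝ)]
      rw [div_mul_eq_mul_div, le_div_iff₀ (by positivity)]
      calc ‖c a‖ * (N : ℝ) ^ 2 ≤ ‖c a‖ * (a : ℝ) ^ 2 :=
            mul_le_mul_of_nonneg_left hNa (norm_nonneg _)
        _ = (a : ℝ) ^ 2 * ‖c a‖ := mul_comm _ _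
        _ ≤ _ := hc a
    · simpa using h0

lemma f2_one_zero_y (f : Sm (n + 2)) (z : Fin n → ℝ) (x : ℝ) : f2 f z x 1 = f2 f z x 0 := by
  have := f2_per_y f z x 0 1
  simpa using this

/-- Fourier coefficients in `y` -/
noncomputable def cy (f : Sm (n + 2)) (z : Fin n → ℝ) (x : ℝ) (a : ℤ) : ℂ :=
  fc (fun y => f2 f z x y) a

/-- constant -/
noncomputable def KT (f : Sm (n + 2)) : ℝ := bd f + bd (pD 1 (pD 1 f))

lemma cy_bound (f : Sm (n + 2)) (z : Fin n → ℝ) (x : ℝ) (a : ℤ) :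
    ‖cy f z x a‖ ≤ KT f * wt a :=
  fc_bound (fun y => f2_dy f z x y) (fun y => f2_dy (pD 1 f) z x y) (f2_cont_y _ _ _)
    (f2_one_zero_y _ _ _) (f2_one_zero_y _ _ _) (fun _ => f2_le _ _ _ _) (fun _ => f2_le _ _ _ _) a

lemma cy_hasSum (f : Sm (n + 2)) (z : Fin n → ℝ) (x y : ℝ) :
    HasSum (fun a : ℤ => cy f z x a * e (a * (y : ℂ))) (f2 f z x y) := by
  refine fc_hasSum (F := fun y => f2 f z x y) (f2_cont_y _ _ _)
    (fun y => by have := f2_per_y f z x y 1; simpa using this) ?_ y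
  exact Summable.of_norm_bounded (wt_summable.mul_left (KT f)) (fun a => cy_bound f z x a)

lemma cy_deriv (f : Sm (n + 2)) (z : Fin n → ℝ) (x : ℝ) (a : ℤ) :
    cy (pD 1 f) z x a = 2 * Real.pi * Complex.I * a * cy f z x a :=
  fc_deriv (fun y => f2_dy f z x y) (f2_cont_y _ _ _) (f2_one_zero_y _ _ _) a

lemma cy_sq (f : Sm (n + 2)) (z : Fin n → ℝ) (x : ℝ) (a : ℤ) :
    (a : ℝ) ^ 2 * ‖cy f z x a‖ ≤ KT (pD 1 (pD 1 f)) * wt a := by
  have h := cy_bound (pD 1 (pD 1 f)) z x a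
  rw [cy_deriv, cy_deriv] at h
  refine le_trans ?_ h
  simp only [norm_mul, Complex.norm_I, Complex.norm_real, Complex.norm_intCast, RCLike.norm_ofNat,
    Real.norm_eq_abs, abs_of_pos Real.pi_pos, mul_one]
  have hpi : (1 : ℝ) ≤ 4 * Real.pi ^ 2 := by nlinarith [Real.pi_gt_three]
  calc (a : ℝ) ^ 2 * ‖cy f z x a‖ ≤ 4 * Real.pi ^ 2 * ((a : ℝ) ^ 2 * ‖cy f z x a‖) :=
        le_mul_of_one_le_left (by positivity) hpi
    _ = _ := by rw [← sq_abs (a : ℝ)]; ring

lemma fc_zero (F : ℝ → ℂ) : fc F 0 = ∫ x in (0 : ℝ)..1, F x := by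
  simp [fc, e]

lemma continuous_pt : Continuous fun p : ℝ × ℝ × (Fin n → ℝ) => pt p.1 p.2.1 p.2.2 := by
  refine continuous_pi fun i => ?_
  refine Fin.cases ?_ (fun j => ?_) i
  · simpa [pt] using continuous_fst
  · refine Fin.cases ?_ (fun k => ?_) j
    · simp only [pt, Fin.cons_succ, Fin.cons_zero]; fun_prop
    · simp only [pt, Fin.cons_succ]; fun_prop

/-- mean over `x, y` -/
noncomputable def I2 (f : Sm (n + 2)) (z : Fin n → ℝ) : ℂ :=
  ∫ y in (0 : ℝ)..1, ∫ x in (0 : ℝ)..1, f2 f z x y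

/-- constant -/
noncomputable def TC (f : Sm (n + 2)) : ℝ :=
  (KT (pD 1 (pD 1 f)) + KK (pD 0 (pD 0 f))) * Wt

lemma dz_zero (N : ℕ) (F : ℝ → ℂ) :
    dz N F 0 = (1 / (N : ℂ)) * ∑ l : Fin N, F ((l : ℕ) / (N : ℝ)) := by
  simp [dz, e]

lemma cont_y_int (f : Sm (n + 2)) (z : Fin n → ℝ) :
    Continuous fun y : ℝ => ∫ x in (0 : ℝ)..1, f2 f z x y := by
  apply intervalIntegral.continuous_parametric_intervalIntegral_of_continuous'
  have h : Continuous fun p : ℝ × ℝ => (p.2, p.1, z) := by fun_prop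
  exact (Sm.cont f).comp (continuous_pt.comp h)

lemma dop_trace {N : ℕ} (hN : 0 < N) (f : Sm (n + 2)) (z : Fin n → ℝ) :
    ‖(1 / (N : ℂ)) * ∑ j, dop N f z j j - I2 f z‖ ≤ TC f / (N : ℝ) ^ 2 := by
  have hNr : (0 : ℝ) < N := by exact_mod_cast hN
  have hNc : (N : ℂ) ≠ 0 := by exact_mod_cast hN.ne'
  have e1 : ∑ j, dop N f z j j = ∑ l : Fin N, dz N (fun y => f2 f z ((l : ℕ) / (N : ℝ)) y) 0 := by
    simp only [dop, sub_self, dz_zero]
    rw [← Finset.mul_sum, ← Finset.mul_sum, Finset.sum_comm]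
  rw [e1]
  have e2 : (1 / (N : ℂ)) * ∑ l : Fin N, dz N (fun y => f2 f z ((l : ℕ) / (N : ℝ)) y) 0 - I2 f z =
      (1 / (N : ℂ)) * ∑ l : Fin N, (dz N (fun y => f2 f z ((l : ℕ) / (N : ℝ)) y) 0 -
        cy f z ((l : ℕ) / (N : ℝ)) 0) +
      ∫ y in (0 : ℝ)..1, (dz N (fun x => f2 f z x y) 0 - cx f z y 0) := by
    rw [intervalIntegral.integral_sub]
    · have e3 : (∫ y in (0 : ℝ)..1, dz N (fun x => f2 f z x y) 0) =
          (1 / (N : ℂ)) * ∑ l : Fin N, cy f z ((l : ℕ) / (N : ℝ)) 0 := by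
        simp only [dz_zero, cy, fc_zero]
        rw [intervalIntegral.integral_const_mul, intervalIntegral.integral_finsetSum]
        intro l _
        exact (f2_cont_y _ _ _).intervalIntegrable _ _
      have e4 : (∫ y in (0 : ℝ)..1, cx f z y 0) = I2 f z := by
        simp only [cx, fc_zero, I2]
      rw [e3, e4, Finset.sum_sub_distrib, mul_sub]
      ring
    · simp only [dz_zero]
      apply Continuous.intervalIntegrable
      exact continuous_const.mul (continuous_finsetSum _ fun l _ => f2_cont_y _ _ _)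
    · simp only [cx, fc_zero]
      exact (cont_y_int f z).intervalIntegrable _ _
  rw [e2]
  refine (norm_add_le _ _).trans ?_
  have b1 : ‖(1 / (N : ℂ)) * ∑ l : Fin N, (dz N (fun y => f2 f z ((l : ℕ) / (N : ℝ)) y) 0 -
        cy f z ((l : ℕ) / (N : ℝ)) 0)‖ ≤ KT (pD 1 (pD 1 f)) * Wt / (N : ℝ) ^ 2 := by
    rw [norm_mul, norm_div, norm_one, Complex.norm_natCast, one_div, inv_mul_le_iff₀ hNr]
    refine (norm_sum_le _ _).trans ?_
    refine (Finset.sum_le_sum fun l _ => riem hN _ _ (fun y => cy_hasSum f z _ y)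
      (fun a => cy_sq f z _ a)).trans ?_
    simp
  have b2 : ‖∫ y in (0 : ℝ)..1, (dz N (fun x => f2 f z x y) 0 - cx f z y 0)‖ ≤
      KK (pD 0 (pD 0 f)) * Wt / (N : ℝ) ^ 2 := by
    have := intervalIntegral.norm_integral_le_of_norm_le_const (a := (0 : ℝ)) (b := 1)
      (f := fun y => dz N (fun x => f2 f z x y) 0 - cx f z y 0)
      (C := KK (pD 0 (pD 0 f)) * Wt / (N : ℝ) ^ 2) (fun y _ =>
        riem hN _ _ (fun x => cx_hasSum f z y x) (fun a => cx_sq f z y a))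
    simpa using this
  refine (add_le_add b1 b2).trans (le_of_eq ?_)
  rw [TC]; ring

/-! ### Fubini -/

lemma int_cons {m : ℕ} (F : (Fin (m + 1) → ℝ) → ℂ) (hF : Continuous F) :
    ∫ v in Set.Icc (0 : Fin (m + 1) → ℝ) 1, F v =
      ∫ w in Set.Icc (0 : Fin m → ℝ) 1, ∫ x in (0 : ℝ)..1, F (Fin.cons x w) := by
  have h1 := volume_preserving_piFinSuccAbove (fun _ : Fin (m + 1) => ℝ) 0
  have h2 := h1.symm
  rw [← h2.setIntegral_preimage_emb (MeasurableEquiv.measurableEmbedding _)]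
  have h3 : ((MeasurableEquiv.piFinSuccAbove (fun _ : Fin (m + 1) => ℝ) 0).symm ⁻¹'
      (Set.Icc (0 : Fin (m + 1) → ℝ) 1)) =
      (Set.Icc (0 : ℝ) 1) ×ˢ (Set.Icc (0 : Fin m → ℝ) 1) := by
    ext ⟨x, w⟩
    simp only [Set.mem_preimage, Set.mem_Icc, Set.mem_prod, Pi.le_def,
      MeasurableEquiv.piFinSuccAbove_symm_apply, Fin.forall_fin_succ]
    simp [Fin.insertNthEquiv]
    tauto
  rw [h3]
  have h4 : ∀ p : ℝ × (Fin m → ℝ),
      F ((MeasurableEquiv.piFinSuccAbove (fun _ : Fin (m + 1) => ℝ) 0).symm p) =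
      F (Fin.cons p.1 p.2) := by
    rintro ⟨x, w⟩
    simp [Fin.insertNthEquiv]
  simp only [h4]
  have hcont : Continuous fun p : ℝ × (Fin m → ℝ) => F (Fin.cons p.1 p.2) := by
    refine hF.comp (continuous_pi fun i => ?_)
    refine Fin.cases ?_ (fun j => ?_) i
    · simpa using continuous_fst
    · simp only [Fin.cons_succ]; fun_prop
  have hint : IntegrableOn (fun p : ℝ × (Fin m → ℝ) => F (Fin.cons p.1 p.2))
      ((Set.Icc (0 : ℝ) 1) ×ˢ (Set.Icc (0 : Fin m → ℝ) 1)) (volume.prod volume) :=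
    hcont.continuousOn.integrableOn_compact (isCompact_Icc.prod isCompact_Icc)
  rw [Measure.volume_eq_prod, ← Measure.prod_restrict, integral_prod_symm]
  · refine setIntegral_congr_fun measurableSet_Icc fun w _ => ?_
    beta_reduce
    rw [intervalIntegral.integral_of_le zero_le_one, integral_Icc_eq_integral_Ioc]
  · rw [Measure.prod_restrict]; exact hint

lemma mean_I2 (f : Sm (n + 2)) : mean f = ∫ z in Set.Icc (0 : Fin n → ℝ) 1, I2 f z := by
  have h0 : mean f = ∫ v in Set.Icc (0 : Fin (n + 2) → ℝ) 1, f.1 v := rfl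
  rw [h0, int_cons _ (Sm.cont f), int_cons]
  · rfl
  · apply intervalIntegral.continuous_parametric_intervalIntegral_of_continuous'
    refine (Sm.cont f).comp (continuous_pi fun i => ?_)
    refine Fin.cases ?_ (fun j => ?_) i
    · simpa using continuous_snd
    · simp only [Fin.cons_succ]; fun_prop

lemma I2_cont (f : Sm (n + 2)) : Continuous (I2 f) := by
  unfold I2
  apply intervalIntegral.continuous_parametric_intervalIntegral_of_continuous'
  have : Continuous fun p : (Fin n → ℝ) × ℝ => ∫ x in (0 : ℝ)..1, f2 f p.1 x p.2 := by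
    apply intervalIntegral.continuous_parametric_intervalIntegral_of_continuous'
    have h : Continuous fun p : ((Fin n → ℝ) × ℝ) × ℝ => (p.2, p.1.2, p.1.1) := by fun_prop
    exact (Sm.cont f).comp (continuous_pt.comp h)
  exact this

lemma volume_cube : volume (Set.Icc (0 : Fin n → ℝ) 1) = 1 := by
  rw [Real.volume_Icc_pi]; simp

lemma norm_mean_le {g : Sm n} {C : ℝ} (h : ∀ z, ‖g.1 z‖ ≤ C) : ‖mean g‖ ≤ C := by
  have h0 : mean g = ∫ v in Set.Icc (0 : Fin n → ℝ) 1, g.1 v := rfl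
  rw [h0]
  have := norm_setIntegral_le_of_norm_le_const (s := Set.Icc (0 : Fin n → ℝ) 1) (μ := volume)
    (f := g.1) (C := C) (by rw [volume_cube]; simp) (fun z _ => h z)
  simpa [Measure.real, volume_cube] using this

lemma norm_mean_sub_le {g : Sm n} {f : Sm (n + 2)} {C : ℝ} (h : ∀ z, ‖g.1 z - I2 f z‖ ≤ C) :
    ‖mean g - mean f‖ ≤ C := by
  have h0 : mean g = ∫ v in Set.Icc (0 : Fin n → ℝ) 1, g.1 v := rfl
  rw [h0, mean_I2, ← integral_sub]
  · have := norm_setIntegral_le_of_norm_le_const (s := Set.Icc (0 : Fin n → ℝ) 1) (μ := volume)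
      (f := fun z => g.1 z - I2 f z) (C := C) (by rw [volume_cube]; simp) (fun z _ => h z)
    simpa [Measure.real, volume_cube] using this
  · exact (Sm.cont g).continuousOn.integrableOn_compact isCompact_Icc
  · exact (I2_cont f).continuousOn.integrableOn_compact isCompact_Icc

end Pool.Agent.PD4.QW

end

/-!
# Project PD4 (MP_69cf13_gt), quantisation: matrix norms, evaluation, `OpM`
-/

section

open MeasureTheory
open scoped ContDiff

namespace Pool.Agent.PD4.QW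

variable {n : ℕ}

section norm

open scoped Matrix.Norms.Operator

variable {κ : Type*} [Fintype κ] [DecidableEq κ]

/-- maximal row sum -/
noncomputable def rn (A : Matrix κ κ ℂ) : ℝ := ‖A‖

lemma rn_nonneg (A : Matrix κ κ ℂ) : 0 ≤ rn A := norm_nonneg _
lemma rn_zero : rn (0 : Matrix κ κ ℂ) = 0 := norm_zero
lemma rn_add (A B : Matrix κ κ ℂ) : rn (A + B) ≤ rn A + rn B := norm_add_le _ _
lemma rn_sub (A B : Matrix κ κ ℂ) : rn (A - B) ≤ rn A + rn B := norm_sub_le _ _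
lemma rn_neg (A : Matrix κ κ ℂ) : rn (-A) = rn A := norm_neg _
lemma rn_mul (A B : Matrix κ κ ℂ) : rn (A * B) ≤ rn A * rn B := norm_mul_le _ _
lemma rn_smul (c : ℂ) (A : Matrix κ κ ℂ) : rn (c • A) = ‖c‖ * rn A := norm_smul _ _

lemma rn_le {A : Matrix κ κ ℂ} {C : ℝ} (hC : 0 ≤ C) (h : ∀ i, ∑ j, ‖A i j‖ ≤ C) : rn A ≤ C := by
  unfold rn
  rw [Matrix.linfty_opNorm_def]
  have : (Finset.univ.sup fun i => ∑ j, ‖A i j‖₊) ≤ (⟨C, hC⟩ : NNReal) := by
    refine Finset.sup_le fun i _ => ?_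
    refine NNReal.coe_le_coe.mp ?_
    rw [NNReal.coe_sum]
    exact h i
  exact_mod_cast this

lemma row_le (A : Matrix κ κ ℂ) (i : κ) : ∑ j, ‖A i j‖ ≤ rn A := by
  unfold rn
  rw [Matrix.linfty_opNorm_def]
  have : ∑ j, ‖A i j‖₊ ≤ (Finset.univ.sup fun i => ∑ j, ‖A i j‖₊) :=
    Finset.le_sup (f := fun i => ∑ j, ‖A i j‖₊) (Finset.mem_univ i)
  have h2 := NNReal.coe_le_coe.mpr this
  push_cast at h2
  exact h2

lemma entry_le (A : Matrix κ κ ℂ) (i j : κ) : ‖A i j‖ ≤ rn A :=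
  (Finset.single_le_sum (f := fun j => ‖A i j‖) (fun _ _ => norm_nonneg _)
    (Finset.mem_univ j)).trans (row_le A i)

lemma trace_le (A : Matrix κ κ ℂ) : ‖A.trace‖ ≤ Fintype.card κ * rn A := by
  unfold Matrix.trace
  refine (norm_sum_le _ _).trans ?_
  refine (Finset.sum_le_sum fun i _ => entry_le A i i).trans (le_of_eq ?_)
  simp

lemma isUnit_one_add {E : Matrix κ κ ℂ} (h : rn E < 1) : IsUnit (1 + E) := by
  have h1 : ‖-E‖ < 1 := by rw [norm_neg]; exact h
  have h2 := (Units.oneSub (-E) h1).isUnit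
  simpa using h2

end norm

/-! ### evaluation of matrices -/

section ev

variable {κ : Type*} [Fintype κ] [DecidableEq κ]

lemma mev_apply (z : Fin n → ℝ) (A : Matrix κ κ (Sm n)) (i j : κ) : mev z A i j = (A i j).1 z := rfl

lemma Sm.sum_apply {α : Type*} (s : Finset α) (g : α → Sm n) (z : Fin n → ℝ) :
    (∑ l ∈ s, g l).1 z = ∑ l ∈ s, (g l).1 z := map_sum (Sm.ev z) g s

lemma Sm.smul_apply (c : ℂ) (g : Sm n) (z : Fin n → ℝ) : (c • g).1 z = c * g.1 z := rfl

lemma Sm.ext' {f g : Sm n} (h : ∀ z, f.1 z = g.1 z) : f = g := Subtype.ext (funext h)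

lemma mev_ext {A B : Matrix κ κ (Sm n)} (h : ∀ z, mev z A = mev z B) : A = B := by
  ext1 i j
  exact Sm.ext' fun z => by
    have := congrFun (congrFun (h z) i) j
    exact this

lemma mev_add (z : Fin n → ℝ) (A B : Matrix κ κ (Sm n)) : mev z (A + B) = mev z A + mev z B := rfl
lemma mev_sub (z : Fin n → ℝ) (A B : Matrix κ κ (Sm n)) : mev z (A - B) = mev z A - mev z B := rfl
lemma mev_neg (z : Fin n → ℝ) (A : Matrix κ κ (Sm n)) : mev z (-A) = - mev z A := rfl
lemma mev_smul (z : Fin n → ℝ) (c : ℂ) (A : Matrix κ κ (Sm n)) : mev z (c • A) = c • mev z A := rfl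
lemma mev_mul (z : Fin n → ℝ) (A B : Matrix κ κ (Sm n)) : mev z (A * B) = mev z A * mev z B := by
  ext i j
  rw [mev_apply, Matrix.mul_apply, Matrix.mul_apply, Sm.sum_apply]
  rfl
lemma mev_one (z : Fin n → ℝ) : mev z (1 : Matrix κ κ (Sm n)) = 1 := by
  ext i j
  rw [mev_apply, Matrix.one_apply, Matrix.one_apply]
  split_ifs <;> rfl
lemma mev_trace (z : Fin n → ℝ) (A : Matrix κ κ (Sm n)) : (mev z A).trace = (A.trace).1 z := by
  unfold Matrix.trace
  rw [Sm.sum_apply]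
  rfl

end ev

/-! ### linearity of `dop` -/

lemma f2_add (f g : Sm (n + 2)) (z : Fin n → ℝ) (x y : ℝ) :
    f2 (f + g) z x y = f2 f z x y + f2 g z x y := rfl

lemma dop_sum {α : Type*} (s : Finset α) (N : ℕ) (f : α → Sm (n + 2)) (z : Fin n → ℝ)
    (j k : Fin N) : dop N (∑ b ∈ s, f b) z j k = ∑ b ∈ s, dop N (f b) z j k := by
  simp only [dop, dz, f2, Sm.sum_apply]
  rw [← Finset.mul_sum, Finset.sum_comm]
  congr 1
  refine Finset.sum_congr rfl fun l _ => ?_
  rw [Finset.mul_sum]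

section OpM

variable {ι : Type*} [Fintype ι] [DecidableEq ι]

lemma mev_OpM (N : ℕ) (M : Matrix ι ι (Sm (n + 2))) (z : Fin n → ℝ) (p q : Fin N × ι) :
    mev z (OpM N M) p q = dop N (M p.2 q.2) z p.1 q.1 := opN_apply N _ z _ _

/-- norm of a matrix with small blocks -/
lemma rn_blk {N : ℕ} {A : Matrix (Fin N × ι) (Fin N × ι) ℂ} (c : ι → ι → ℝ)
    (hc : ∀ a b, 0 ≤ c a b) (h : ∀ a b j, ∑ k, ‖A (j, a) (k, b)‖ ≤ c a b) :
    rn A ≤ ∑ a, ∑ b, c a b := by
  refine rn_le (Finset.sum_nonneg fun a _ => Finset.sum_nonneg fun b _ => hc a b) fun p => ?_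
  obtain ⟨j, a⟩ := p
  rw [Fintype.sum_prod_type, Finset.sum_comm]
  refine (Finset.sum_le_sum fun b _ => h a b j).trans ?_
  exact Finset.single_le_sum (f := fun a => ∑ b, c a b)
    (fun a _ => Finset.sum_nonneg fun b _ => hc a b) (Finset.mem_univ a)

/-- bound for `OpM` -/
lemma rn_OpM {N : ℕ} (hN : 0 < N) (M : Matrix ι ι (Sm (n + 2))) (z : Fin n → ℝ) :
    rn (mev z (OpM N M)) ≤ ∑ a, ∑ b, KK (M a b) * Wt := by
  refine rn_blk _ (fun a b => mul_nonneg (KK_nonneg _) Wt_nonneg) fun a b j => ?_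
  simp only [mev_OpM]
  exact dop_row hN _ z j

/-- the constant `ε = 1/(2πiN)` -/
noncomputable def ep (N : ℕ) : ℂ := 1 / (2 * Real.pi * Complex.I * N)

lemma norm_ep_le (N : ℕ) (hN : 0 < N) : ‖ep N‖ ≤ 1 / N := by
  have hNr : (0 : ℝ) < N := by exact_mod_cast hN
  unfold ep
  rw [norm_div, norm_one]
  simp only [norm_mul, Complex.norm_I, Complex.norm_real, RCLike.norm_ofNat,
    Real.norm_eq_abs, abs_of_pos Real.pi_pos, mul_one, Complex.norm_natCast]
  apply one_div_le_one_div_of_le hNr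
  nlinarith [Real.pi_gt_three]

/-- star product estimate for matrices -/
lemma rn_prod {N : ℕ} (hN : 0 < N) (M M' : Matrix ι ι (Sm (n + 2))) (z : Fin n → ℝ) :
    rn (mev z (OpM N M * OpM N M' - OpM N (M * M') +
      ep N • OpM N ((pD 1).mapMatrix M * (pD 0).mapMatrix M'))) ≤
    (∑ a, ∑ c, ∑ b, KK (pD 0 (pD 0 (M' b c))) * KY (M a b) * Wt * Wt) / (N : ℝ) ^ 2 := by
  have h0 : ∀ a c, 0 ≤ (∑ b, KK (pD 0 (pD 0 (M' b c))) * KY (M a b) * Wt * Wt) / (N : ℝ) ^ 2 :=
    fun a c => div_nonneg (Finset.sum_nonneg fun b _ =>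
      mul_nonneg (mul_nonneg (mul_nonneg (KK_nonneg _) (KY_nonneg _)) Wt_nonneg) Wt_nonneg)
      (by positivity)
  refine (rn_blk (fun a c => (∑ b, KK (pD 0 (pD 0 (M' b c))) * KY (M a b) * Wt * Wt) /
    (N : ℝ) ^ 2) h0 fun a c j => ?_).trans (le_of_eq ?_)
  · have h1 : ∀ l : Fin N, mev z (OpM N M * OpM N M' - OpM N (M * M') +
      ep N • OpM N ((pD 1).mapMatrix M * (pD 0).mapMatrix M')) (j, a) (l, c) =
        ∑ b, perr N (M a b) (M' b c) z j l := by
      intro l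
      rw [mev_add, mev_sub, mev_mul, mev_smul, Matrix.add_apply, Matrix.sub_apply,
        Matrix.smul_apply, Matrix.mul_apply, Fintype.sum_prod_type, mev_OpM, mev_OpM]
      simp only [Matrix.mul_apply, LinearMap.mapMatrix_apply, Matrix.map_apply, dop_sum, mev_OpM,
        perr, Matrix.add_apply, Matrix.sub_apply, Matrix.smul_apply]
      rw [Finset.sum_add_distrib, Finset.sum_sub_distrib, Finset.sum_comm, ← Finset.smul_sum]
      rfl
    simp only [h1]
    calc ∑ l, ‖∑ b, perr N (M a b) (M' b c) z j l‖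
        ≤ ∑ l, ∑ b, ‖perr N (M a b) (M' b c) z j l‖ :=
          Finset.sum_le_sum fun l _ => norm_sum_le _ _
      _ = ∑ b, ∑ l, ‖perr N (M a b) (M' b c) z j l‖ := Finset.sum_comm
      _ ≤ ∑ b, (KK (pD 0 (pD 0 (M' b c))) * KY (M a b) * Wt * Wt) / (N : ℝ) ^ 2 :=
          Finset.sum_le_sum fun b _ => perr_row hN _ _ z j
      _ = _ := by rw [Finset.sum_div]
  · simp only [Finset.sum_div]

end OpM

end Pool.Agent.PD4.QW

end

/-!
# Project PD4 (MP_69cf13_gt), quantisation: symbol calculus modulo `O(N⁻²)`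
-/

section

open MeasureTheory
open scoped ContDiff

namespace Pool.Agent.PD4.QW

variable {n : ℕ} {ι : Type*} [Fintype ι] [DecidableEq ι]

/-- sequences of matrices -/
abbrev Seq (ι : Type*) (n : ℕ) := ∀ N : ℕ, Matrix (Fin N × ι) (Fin N × ι) (Sm n)

/-- `O(N^{-p})` uniformly in `z` -/
def BO (p : ℕ) (A : Seq ι n) : Prop :=
  ∃ C : ℝ, 0 ≤ C ∧ ∃ N₀ : ℕ, ∀ N, N₀ ≤ N → 0 < N → ∀ z, rn (mev z (A N)) ≤ C / (N : ℝ) ^ p

lemma BO.congr {p : ℕ} {A B : Seq ι n} (hA : BO p A) (h : ∀ N, 0 < N → A N = B N) : BO p B := by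
  obtain ⟨C, hC, N₀, h1⟩ := hA
  exact ⟨C, hC, N₀, fun N hN hN' z => by rw [← h N hN']; exact h1 N hN hN' z⟩

lemma BO.add {p : ℕ} {A B : Seq ι n} (hA : BO p A) (hB : BO p B) :
    BO p (fun N => A N + B N) := by
  obtain ⟨C, hC, N₀, h1⟩ := hA
  obtain ⟨C', hC', N₀', h1'⟩ := hB
  refine ⟨C + C', add_nonneg hC hC', max N₀ N₀', fun N hN hN' z => ?_⟩
  rw [mev_add, add_div]
  exact (rn_add _ _).trans (add_le_add (h1 N (le_of_max_le_left hN) hN' z)
    (h1' N (le_of_max_le_right hN) hN' z))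

lemma BO.neg {p : ℕ} {A : Seq ι n} (hA : BO p A) : BO p (fun N => - A N) := by
  obtain ⟨C, hC, N₀, h1⟩ := hA
  exact ⟨C, hC, N₀, fun N hN hN' z => by rw [mev_neg, rn_neg]; exact h1 N hN hN' z⟩

lemma BO.sub {p : ℕ} {A B : Seq ι n} (hA : BO p A) (hB : BO p B) :
    BO p (fun N => A N - B N) := by
  have := hA.add hB.neg
  simpa only [sub_eq_add_neg] using this

lemma BO.mul {p q : ℕ} {A B : Seq ι n} (hA : BO p A) (hB : BO q B) :
    BO (p + q) (fun N => A N * B N) := by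
  obtain ⟨C, hC, N₀, h1⟩ := hA
  obtain ⟨C', hC', N₀', h1'⟩ := hB
  refine ⟨C * C', mul_nonneg hC hC', max N₀ N₀', fun N hN hN' z => ?_⟩
  rw [mev_mul, pow_add, mul_div_mul_comm]
  exact (rn_mul _ _).trans (mul_le_mul (h1 N (le_of_max_le_left hN) hN' z)
    (h1' N (le_of_max_le_right hN) hN' z) (rn_nonneg _) (div_nonneg hC (by positivity)))

lemma BO.eps {p : ℕ} {A : Seq ι n} (hA : BO p A) : BO (p + 1) (fun N => ep N • A N) := by
  obtain ⟨C, hC, N₀, h1⟩ := hA
  refine ⟨C, hC, N₀, fun N hN hN' z => ?_⟩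
  have hNr : (0 : ℝ) < N := by exact_mod_cast hN'
  rw [mev_smul, rn_smul]
  calc ‖ep N‖ * rn (mev z (A N)) ≤ (1 / N) * (C / (N : ℝ) ^ p) :=
        mul_le_mul (norm_ep_le N hN') (h1 N hN hN' z) (rn_nonneg _) (by positivity)
    _ = C / (N : ℝ) ^ (p + 1) := by rw [pow_succ]; field_simp

lemma BO.mono {p q : ℕ} (hpq : p ≤ q) {A : Seq ι n} (hA : BO q A) : BO p A := by
  obtain ⟨C, hC, N₀, h1⟩ := hA
  refine ⟨C, hC, N₀, fun N hN hN' z => (h1 N hN hN' z).trans ?_⟩
  have hNr : (1 : ℝ) ≤ N := by exact_mod_cast hN'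
  exact div_le_div_of_nonneg_left hC (by positivity) (pow_le_pow_right₀ hNr hpq)

lemma BO.op (M : Matrix ι ι (Sm (n + 2))) : BO 0 (fun N => OpM N M) :=
  ⟨∑ a, ∑ b, KK (M a b) * Wt, Finset.sum_nonneg fun a _ => Finset.sum_nonneg fun b _ =>
    mul_nonneg (KK_nonneg _) Wt_nonneg, 0, fun N _ hN z => by
      rw [pow_zero, div_one]; exact rn_OpM hN M z⟩

lemma BO.prod (M M' : Matrix ι ι (Sm (n + 2))) :
    BO 2 (fun N => OpM N M * OpM N M' - OpM N (M * M') +
      ep N • OpM N ((pD 1).mapMatrix M * (pD 0).mapMatrix M')) :=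
  ⟨∑ a, ∑ c, ∑ b, KK (pD 0 (pD 0 (M' b c))) * KY (M a b) * Wt * Wt,
    Finset.sum_nonneg fun a _ => Finset.sum_nonneg fun b _ => Finset.sum_nonneg fun c _ =>
      mul_nonneg (mul_nonneg (mul_nonneg (KK_nonneg _) (KY_nonneg _)) Wt_nonneg) Wt_nonneg, 0,
    fun N _ hN z => rn_prod hN M M' z⟩

/-! ### additivity of `OpM` -/

lemma f2_neg (f : Sm (n + 2)) (z : Fin n → ℝ) (x y : ℝ) : f2 (-f) z x y = - f2 f z x y := rfl
lemma f2_sub (f g : Sm (n + 2)) (z : Fin n → ℝ) (x y : ℝ) :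
    f2 (f - g) z x y = f2 f z x y - f2 g z x y := rfl

lemma OpM_add (N : ℕ) (M M' : Matrix ι ι (Sm (n + 2))) : OpM N (M + M') = OpM N M + OpM N M' := by
  refine mev_ext fun z => ?_
  ext p q
  rw [mev_add, Matrix.add_apply, mev_OpM, mev_OpM, mev_OpM]
  simp only [dop, Matrix.add_apply, f2_add, dz_add]

lemma OpM_sub (N : ℕ) (M M' : Matrix ι ι (Sm (n + 2))) : OpM N (M - M') = OpM N M - OpM N M' := by
  refine mev_ext fun z => ?_
  ext p q
  rw [mev_sub, Matrix.sub_apply, mev_OpM, mev_OpM, mev_OpM]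
  simp only [dop, Matrix.sub_apply, f2_sub, dz_sub]

lemma OpM_zero (N : ℕ) : OpM N (0 : Matrix ι ι (Sm (n + 2))) = 0 := by
  have := OpM_sub N (0 : Matrix ι ι (Sm (n + 2))) 0
  simpa using this

lemma OpM_one {N : ℕ} (hN : 0 < N) : OpM N (1 : Matrix ι ι (Sm (n + 2))) = 1 := by
  refine mev_ext fun z => ?_
  ext p q
  rw [mev_OpM, mev_one]
  obtain ⟨j, a⟩ := p
  obtain ⟨k, b⟩ := q
  simp only [dop, Matrix.one_apply, Prod.mk.injEq]
  by_cases hab : a = b
  · simp only [hab, if_true, and_true]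
    have h1 : ∀ x y, f2 (1 : Sm (n + 2)) z x y = 1 := fun _ _ => rfl
    simp only [h1, dz_one hN]
    by_cases hjk : j = k
    · simp [hjk]
    · have : ¬ ((N : ℤ) ∣ ((j : ℕ) : ℤ) - (k : ℕ)) := by
        intro h
        apply hjk
        have h2 : ((j : ℕ) : ℤ) - (k : ℕ) = 0 := by
          apply Int.eq_zero_of_abs_lt_dvd h
          rw [abs_lt]
          have := j.2; have := k.2
          constructor <;> omega
        exact Fin.ext (by omega)
      simp [hjk, this]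
  · have h0 : ∀ x y, f2 (0 : Sm (n + 2)) z x y = 0 := fun _ _ => rfl
    simp [hab, h0, dz]

/-! ### symbols -/

/-- `A = Op(a) + ε Op(b) + O(N⁻²)` -/
def Symb (A : Seq ι n) (a b : Matrix ι ι (Sm (n + 2))) : Prop :=
  BO 2 (fun N => A N - (OpM N a + ep N • OpM N b))

lemma Symb.congr {A B : Seq ι n} {a b : Matrix ι ι (Sm (n + 2))} (h : Symb A a b)
    (hAB : ∀ N, 0 < N → A N = B N) : Symb B a b :=
  BO.congr h fun N hN => by rw [hAB N hN]

lemma Symb.op (a : Matrix ι ι (Sm (n + 2))) : Symb (fun N => OpM N a) a 0 := by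
  unfold Symb
  refine ⟨0, le_rfl, 0, fun N _ _ z => ?_⟩
  simp only [OpM_zero, smul_zero, add_zero, sub_self]
  have : mev z (0 : Matrix (Fin N × ι) (Fin N × ι) (Sm n)) = 0 := rfl
  rw [this, rn_zero]
  positivity

lemma Symb.one : Symb (fun N => (1 : Matrix (Fin N × ι) (Fin N × ι) (Sm n))) 1 0 :=
  (Symb.op (1 : Matrix ι ι (Sm (n + 2)))).congr fun _ hN => OpM_one hN

lemma Symb.bo {A : Seq ι n} {a b : Matrix ι ι (Sm (n + 2))} (h : Symb A a b) : BO 0 A := by
  have h1 := (BO.mono (Nat.zero_le 2) h).add ((BO.op a).add (BO.mono (Nat.zero_le 1) (BO.op b).eps))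
  refine h1.congr fun N _ => ?_
  abel

/-- product of symbols -/
lemma Symb.mul {A A' : Seq ι n} {a b a' b' : Matrix ι ι (Sm (n + 2))} (h : Symb A a b)
    (h' : Symb A' a' b') : Symb (fun N => A N * A' N) (a * a')
      (a * b' + b * a' - (pD 1).mapMatrix a * (pD 0).mapMatrix a') := by
  -- `X = Op a + ε Op b`
  have hX : BO 0 (fun N => OpM N a + ep N • OpM N b) :=
    (BO.op a).add (BO.mono (Nat.zero_le 1) (BO.op b).eps)
  have h1 : BO 2 (fun N => (A N - (OpM N a + ep N • OpM N b)) * A' N) := by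
    have := BO.mul h h'.bo
    simpa using this
  have h2 : BO 2 (fun N => (OpM N a + ep N • OpM N b) * (A' N - (OpM N a' + ep N • OpM N b'))) := by
    have := BO.mul hX h'
    simpa using this
  have hp := BO.prod a a'
  have hp1 : BO 1 (fun N => OpM N a * OpM N b' - OpM N (a * b')) := by
    have h3 := (BO.mono (Nat.le_succ 1) (BO.prod a b')).sub
      (BO.op ((pD 1).mapMatrix a * (pD 0).mapMatrix b')).eps
    exact h3.congr fun N _ => by abel
  have hp2 : BO 1 (fun N => OpM N b * OpM N a' - OpM N (b * a')) := by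
    have h3 := (BO.mono (Nat.le_succ 1) (BO.prod b a')).sub
      (BO.op ((pD 1).mapMatrix b * (pD 0).mapMatrix a')).eps
    exact h3.congr fun N _ => by abel
  have hp3 : BO 0 (fun N => OpM N b * OpM N b') := by
    have := BO.mul (BO.op b) (BO.op b')
    simpa using this
  have h4 := (((h1.add h2).add hp).add (hp1.eps.add hp2.eps)).add hp3.eps.eps
  refine h4.congr fun N _ => ?_
  simp only [OpM_sub, OpM_add]
  simp only [mul_add, add_mul, mul_sub, sub_mul, smul_add, smul_sub, smul_mul_assoc,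
    mul_smul_comm]
  abel

end Pool.Agent.PD4.QW

end

/-!
# Project PD4 (MP_69cf13_gt), quantisation: inverse, derivatives, words, traces
-/

section

open MeasureTheory
open scoped ContDiff

namespace Pool.Agent.PD4.QW

variable {n : ℕ} {ι : Type*} [Fintype ι] [DecidableEq ι]

lemma isUnit_left_of_mul {κ : Type*} [Fintype κ] [DecidableEq κ] {A B : Matrix κ κ ℂ}
    (h : IsUnit (A * B)) : IsUnit A := by
  rw [Matrix.isUnit_iff_isUnit_det] at h ⊢
  rw [Matrix.det_mul] at h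
  exact isUnit_of_mul_isUnit_left h

/-- the second symbol of the inverse -/
noncomputable def hG (G : (Matrix ι ι (Sm (n + 2)))ˣ) : Matrix ι ι (Sm (n + 2)) :=
  By G * (pD 0).mapMatrix ((G⁻¹ : (Matrix ι ι (Sm (n + 2)))ˣ) : Matrix ι ι (Sm (n + 2)))

lemma inv_err (G : (Matrix ι ι (Sm (n + 2)))ˣ) :
    BO 2 (fun N => OpM N (G : Matrix ι ι (Sm (n + 2))) *
      (OpM N ((G⁻¹ : (Matrix ι ι (Sm (n + 2)))ˣ) : Matrix ι ι (Sm (n + 2))) +
        ep N • OpM N (hG G)) - 1) := by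
  have hK : Symb (fun N => OpM N ((G⁻¹ : (Matrix ι ι (Sm (n + 2)))ˣ) : Matrix ι ι (Sm (n + 2))) +
        ep N • OpM N (hG G)) ((G⁻¹ : (Matrix ι ι (Sm (n + 2)))ˣ) : Matrix ι ι (Sm (n + 2)))
        (hG G) := by
    refine ⟨0, le_rfl, 0, fun N _ _ z => ?_⟩
    simp only [sub_self]
    have : mev z (0 : Matrix (Fin N × ι) (Fin N × ι) (Sm n)) = 0 := rfl
    rw [this, rn_zero]
    positivity
  have h1 := (Symb.op (G : Matrix ι ι (Sm (n + 2)))).mul hK
  have e1 : (G : Matrix ι ι (Sm (n + 2))) *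
      ((G⁻¹ : (Matrix ι ι (Sm (n + 2)))ˣ) : Matrix ι ι (Sm (n + 2))) = 1 := by simp
  have e2 : (G : Matrix ι ι (Sm (n + 2))) * hG G +
      0 * ((G⁻¹ : (Matrix ι ι (Sm (n + 2)))ˣ) : Matrix ι ι (Sm (n + 2))) -
      (pD 1).mapMatrix (G : Matrix ι ι (Sm (n + 2))) *
      (pD 0).mapMatrix ((G⁻¹ : (Matrix ι ι (Sm (n + 2)))ˣ) : Matrix ι ι (Sm (n + 2))) = 0 := by
    rw [zero_mul, add_zero, hG, By, ← mul_assoc, ← mul_assoc, e1, one_mul, sub_self]
  rw [e1, e2] at h1
  unfold Symb at h1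
  refine h1.congr fun N hN => ?_
  rw [OpM_one hN, OpM_zero, smul_zero, add_zero]

/-- the quantised `G` is invertible for large `N`, and the symbol of its inverse -/
theorem inv_symb (G : (Matrix ι ι (Sm (n + 2)))ˣ) :
    (∃ N₀ : ℕ, ∀ N, N₀ ≤ N → 0 < N → IsUnit (OpM N (G : Matrix ι ι (Sm (n + 2))))) ∧
    Symb (fun N => Ring.inverse (OpM N (G : Matrix ι ι (Sm (n + 2)))))
      ((G⁻¹ : (Matrix ι ι (Sm (n + 2)))ˣ) : Matrix ι ι (Sm (n + 2))) (hG G) := by
  set K : Seq ι n := fun N =>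
    OpM N ((G⁻¹ : (Matrix ι ι (Sm (n + 2)))ˣ) : Matrix ι ι (Sm (n + 2))) +
        ep N • OpM N (hG G) with hKdef
  set E : Seq ι n := fun N => OpM N (G : Matrix ι ι (Sm (n + 2))) * K N - 1 with hEdef
  have hE : BO 2 E := inv_err G
  have hK0 : BO 0 K := (BO.op _).add (BO.mono (Nat.zero_le 1) (BO.op _).eps)
  obtain ⟨C, hC, N₀, hCE⟩ := hE
  obtain ⟨CK, hCK, N₀', hCK'⟩ := hK0
  -- bound of `E` by `1/2`
  have hhalf : ∀ N, max N₀ (⌈2 * C⌉₊ + 1) ≤ N → 0 < N → ∀ z, rn (mev z (E N)) ≤ 1 / 2 := by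
    intro N hN hN' z
    have hNr : (1 : ℝ) ≤ N := by exact_mod_cast hN'
    refine (hCE N (le_of_max_le_left hN) hN' z).trans ?_
    have h2 : 2 * C ≤ N := by
      have h3 := Nat.le_ceil (2 * C)
      have h4 : ((⌈2 * C⌉₊ + 1 : ℕ) : ℝ) ≤ N := by exact_mod_cast le_of_max_le_right hN
      push_cast at h4
      linarith
    rw [div_le_div_iff₀ (by positivity) (by norm_num)]
    nlinarith
  have hunit : ∀ N, max N₀ (⌈2 * C⌉₊ + 1) ≤ N → 0 < N →
      IsUnit (OpM N (G : Matrix ι ι (Sm (n + 2)))) := by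
    intro N hN hN'
    apply isUnit_of_pointwise
    intro z
    have h1 : mev z (OpM N (G : Matrix ι ι (Sm (n + 2)))) * mev z (K N) = 1 + mev z (E N) := by
      rw [hEdef]
      simp only
      rw [mev_sub, mev_mul, mev_one]
      abel
    apply isUnit_left_of_mul (B := mev z (K N))
    rw [h1]
    exact isUnit_one_add ((hhalf N hN hN' z).trans_lt (by norm_num))
  refine ⟨⟨_, hunit⟩, ?_⟩
  -- `V = K - V E`
  have hV : ∀ N, max N₀ (⌈2 * C⌉₊ + 1) ≤ N → 0 < N →
      Ring.inverse (OpM N (G : Matrix ι ι (Sm (n + 2)))) =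
        K N - Ring.inverse (OpM N (G : Matrix ι ι (Sm (n + 2)))) * E N := by
    intro N hN hN'
    have h1 := Ring.inverse_mul_cancel _ (hunit N hN hN')
    rw [hEdef]
    simp only
    rw [mul_sub, ← mul_assoc, h1, one_mul, mul_one]
    abel
  have hVbo : BO 0 (fun N => Ring.inverse (OpM N (G : Matrix ι ι (Sm (n + 2))))) := by
    refine ⟨2 * CK, by positivity, max N₀' (max N₀ (⌈2 * C⌉₊ + 1)), fun N hN hN' z => ?_⟩
    have h1 := hCK' N (le_of_max_le_left hN) hN' z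
    have h2 := hhalf N (le_of_max_le_right hN) hN' z
    have h3 := hV N (le_of_max_le_right hN) hN'
    have h4 : rn (mev z (Ring.inverse (OpM N (G : Matrix ι ι (Sm (n + 2)))))) ≤
        rn (mev z (K N)) + rn (mev z (Ring.inverse (OpM N (G : Matrix ι ι (Sm (n + 2)))))) *
          rn (mev z (E N)) := by
      conv_lhs => rw [h3]
      rw [mev_sub, mev_mul]
      exact (rn_sub _ _).trans (add_le_add le_rfl (rn_mul _ _))
    have h5 := mul_le_mul_of_nonneg_left h2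
      (rn_nonneg (mev z (Ring.inverse (OpM N (G : Matrix ι ι (Sm (n + 2)))))))
    rw [pow_zero, div_one] at h1 ⊢
    linarith
  have h6 : BO 2 (fun N => Ring.inverse (OpM N (G : Matrix ι ι (Sm (n + 2)))) * E N) := by
    have := BO.mul hVbo ⟨C, hC, N₀, hCE⟩
    simpa using this
  obtain ⟨C6, hC6, N6, h7⟩ := h6
  refine ⟨C6, hC6, max N6 (max N₀ (⌈2 * C⌉₊ + 1)), fun N hN hN' z => ?_⟩
  have h8 : Ring.inverse (OpM N (G : Matrix ι ι (Sm (n + 2)))) - K N =
      - (Ring.inverse (OpM N (G : Matrix ι ι (Sm (n + 2)))) * E N) := by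
    have h3 := hV N (le_of_max_le_right hN) hN'
    rw [sub_eq_iff_eq_add]
    conv_lhs => rw [h3]
    abel
  have h9 := h7 N (le_of_max_le_left hN) hN' z
  change rn (mev z (Ring.inverse (OpM N (G : Matrix ι ι (Sm (n + 2)))) - K N)) ≤ _
  rw [h8, mev_neg, rn_neg]
  exact h9

/-! ### derivatives -/

lemma pD_val (f : Sm n) (i : Fin n) (z : Fin n → ℝ) :
    HasDerivAt (fun t : ℝ => f.1 (z + t • Pi.single i 1)) ((pD i f).1 z) 0 := by
  have := Sm.hasDerivAt_line f i z 0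
  simpa using this

lemma pt_add (x y t : ℝ) (z : Fin n → ℝ) (i : Fin n) :
    pt x y (z + t • Pi.single i 1) = pt x y z + t • Pi.single i.succ.succ 1 := by
  ext j
  refine Fin.cases ?_ (fun j => ?_) j
  · simp [pt]
  · refine Fin.cases ?_ (fun k => ?_) j
    · simp [pt, Pi.single_apply]
      intro h
      exact absurd h (by simp [Fin.ext_iff])
    · simp [pt, Pi.single_apply]

lemma pD_slice (x y : ℝ) (f : Sm (n + 2)) (i : Fin n) :
    pD i (slice x y f) = slice x y (pD i.succ.succ f) := by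
  refine Sm.ext' fun z => ?_
  have h1 := pD_val (slice x y f) i z
  have h2 := pD_val f i.succ.succ (pt x y z)
  simp only [← pt_add] at h2
  exact h1.unique h2

lemma pD_opN (N : ℕ) (f : Sm (n + 2)) (i : Fin n) (j k : Fin N) :
    pD i (opN N f j k) = opN N (pD i.succ.succ f) j k := by
  simp only [opN, map_smul, map_sum, pD_slice]

lemma pD_OpM (N : ℕ) (M : Matrix ι ι (Sm (n + 2))) (i : Fin n) :
    (pD i).mapMatrix (OpM N M) = OpM N ((pD i.succ.succ).mapMatrix M) := by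
  ext1 p q
  exact pD_opN N _ i _ _

/-! ### words -/

lemma mapMatrix_leib (i : Fin (n + 2)) (A B : Matrix ι ι (Sm (n + 2))) :
    (pD i).mapMatrix (A * B) = (pD i).mapMatrix A * B + A * (pD i).mapMatrix B :=
  (matCalc ι (n + 2)).leib i A B

/-- first order coefficient of the letter `i` -/
noncomputable def Bz (G : (Matrix ι ι (Sm (n + 2)))ˣ) (i : Fin n) : Matrix ι ι (Sm (n + 2)) :=
  By G * (pD 0).mapMatrix (Az G i)

/-- zeroth order of the word -/
noncomputable def W0 (G : (Matrix ι ι (Sm (n + 2)))ˣ) (L : List (Fin n)) :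
    Matrix ι ι (Sm (n + 2)) := (L.map (Az G)).prod

/-- first order of the word -/
noncomputable def W1 (G : (Matrix ι ι (Sm (n + 2)))ˣ) :
    List (Fin n) → Matrix ι ι (Sm (n + 2))
  | [] => 0
  | i :: L => Az G i * W1 G L + Bz G i * W0 G L -
      (pD 1).mapMatrix (Az G i) * (pD 0).mapMatrix (W0 G L)

lemma mapMatrix_one (i : Fin (n + 2)) :
    (pD i).mapMatrix (1 : Matrix ι ι (Sm (n + 2))) = 0 := by
  have h := mapMatrix_leib i (1 : Matrix ι ι (Sm (n + 2))) 1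
  rw [mul_one, mul_one, one_mul] at h
  exact (left_eq_add.mp h)

lemma pD_inv_mul (G : (Matrix ι ι (Sm (n + 2)))ˣ) :
    (pD 1).mapMatrix ((G⁻¹ : (Matrix ι ι (Sm (n + 2)))ˣ) : Matrix ι ι (Sm (n + 2))) =
      - (By G * ((G⁻¹ : (Matrix ι ι (Sm (n + 2)))ˣ) : Matrix ι ι (Sm (n + 2)))) := by
  have h := mapMatrix_leib 1 (G : Matrix ι ι (Sm (n + 2)))
    ((G⁻¹ : (Matrix ι ι (Sm (n + 2)))ˣ) : Matrix ι ι (Sm (n + 2)))
  rw [Units.mul_inv, mapMatrix_one] at h
  have h2 := congrArg (fun X => ((G⁻¹ : (Matrix ι ι (Sm (n + 2)))ˣ) :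
    Matrix ι ι (Sm (n + 2))) * X) h
  simp only [mul_zero, mul_add] at h2
  rw [← mul_assoc, ← mul_assoc, Units.inv_mul, one_mul] at h2
  rw [By]
  exact eq_neg_of_add_eq_zero_right h2.symm

lemma letter_symb (G : (Matrix ι ι (Sm (n + 2)))ˣ) (i : Fin n) :
    Symb (fun N => Ring.inverse (OpM N (G : Matrix ι ι (Sm (n + 2)))) *
      (pD i).mapMatrix (OpM N (G : Matrix ι ι (Sm (n + 2))))) (Az G i) (Bz G i) := by
  have h1 := (inv_symb G).2.mul
    (Symb.op ((pD i.succ.succ).mapMatrix (G : Matrix ι ι (Sm (n + 2)))))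
  have e1 : ((G⁻¹ : (Matrix ι ι (Sm (n + 2)))ˣ) : Matrix ι ι (Sm (n + 2))) * 0 +
      hG G * (pD i.succ.succ).mapMatrix (G : Matrix ι ι (Sm (n + 2))) -
      (pD 1).mapMatrix ((G⁻¹ : (Matrix ι ι (Sm (n + 2)))ˣ) : Matrix ι ι (Sm (n + 2))) *
      (pD 0).mapMatrix ((pD i.succ.succ).mapMatrix (G : Matrix ι ι (Sm (n + 2)))) = Bz G i := by
    rw [mul_zero, zero_add, pD_inv_mul, Bz, Az, mapMatrix_leib, hG, Matrix.neg_mul]
    rw [sub_neg_eq_add, mul_add, mul_assoc, mul_assoc]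
  rw [e1] at h1
  refine h1.congr fun N _ => ?_
  rw [pD_OpM]

lemma word_symb (G : (Matrix ι ι (Sm (n + 2)))ˣ) (L : List (Fin n)) :
    Symb (fun N => (L.map fun i => Ring.inverse (OpM N (G : Matrix ι ι (Sm (n + 2)))) *
      (pD i).mapMatrix (OpM N (G : Matrix ι ι (Sm (n + 2))))).prod) (W0 G L) (W1 G L) := by
  induction L with
  | nil =>
    have : W0 G [] = 1 := rfl
    rw [this]
    exact Symb.one
  | cons i L ih =>
    have h1 := (letter_symb G i).mul ih
    have e0 : W0 G (i :: L) = Az G i * W0 G L := by simp [W0]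
    rw [e0]
    refine h1.congr fun N _ => ?_
    simp only [List.map_cons, List.prod_cons]

end Pool.Agent.PD4.QW

end

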